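import Pool.Agent.TH486.LAC.Prod2
import Pool.Agent.TH486.LAC.Special

set_option autoImplicit false

/-!
Decompositions of small dimension, with good pairs.
-/

namespace Pool.Agent.TH486.LAC

open Finset Module

variable {p : ℕ} [Fact p.Prime]

/-- A decomposition with `n` cycles. -/
def Dec (p : ℕ) [Fact p.Prime] {E : Type} [AddCommGroup E] (G : Set E) (n : ℕ) : Prop :=
  ∃ (u : E → ZMod p) (h : Fin n → Equiv.Perm E), HD G u h

/-- A decomposition with `n` cycles and a good pair. -/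
def DecG (p : ℕ) [Fact p.Prime] {E : Type} [AddCommGroup E] (G : Set E) (n : ℕ) : Prop :=
  ∃ (u : E → ZMod p) (h : Fin n → Equiv.Perm E), HD G u h ∧ ∃ (k1 k2 : Fin n) (a b : ℕ),
    k1 ≠ k2 ∧ 1 ≤ a ∧ 1 ≤ b ∧ a + b < p ∧ Tr (h k2 ^ b * h k1 ^ a)

theorem DecG.dec {E : Type} [AddCommGroup E] {G : Set E} {n : ℕ} (h : DecG p G n) : Dec p G n := by
  obtain ⟨u, h, hd, _⟩ := h
  exact ⟨u, h, hd⟩

/-- From any index type. -/
theorem decG_of {κ E : Type} [Fintype κ] [AddCommGroup E] {G : Set E} {u : E → ZMod p}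
    {h : κ → Equiv.Perm E} (S : HD G u h) {n : ℕ} (hn : Fintype.card κ = n) {k1 k2 : κ} {a b : ℕ}
    (hk : k1 ≠ k2) (ha : 1 ≤ a) (hb : 1 ≤ b) (hab : a + b < p)
    (ht : Tr (h k2 ^ b * h k1 ^ a)) : DecG p G n := by
  let e : Fin n ≃ κ := (Fintype.equivFinOfCardEq hn).symm
  refine ⟨u, fun i => h (e i), S.reindex e e.surjective, e.symm k1, e.symm k2, a, b, ?_, ha, hb,
    hab, ?_⟩
  · intro h1
    exact hk (e.symm.injective h1)
  · simpa using ht

theorem dec_of {κ E : Type} [Fintype κ] [AddCommGroup E] {G : Set E} {u : E → ZMod p}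
    {h : κ → Equiv.Perm E} (S : HD G u h) {n : ℕ} (hn : Fintype.card κ = n) : Dec p G n := by
  let e : Fin n ≃ κ := (Fintype.equivFinOfCardEq hn).symm
  exact ⟨u, fun i => h (e i), S.reindex e e.surjective⟩

theorem dec_even {E E' : Type} [AddCommGroup E] [AddCommGroup E'] [Finite E] [Finite E']
    {G : Set E} {G' : Set E'} {n m m' : ℕ} (hX : Dec p G n) (hY : Dec p G' n) (hn : 1 ≤ n)
    (hm : 1 ≤ m) (hmm : m ≤ m') (hE : Nat.card E = p ^ m) (hE' : Nat.card E' = p ^ m')
    (hp : 5 ≤ p) : DecG p (GS G G') (n + n) := by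
  obtain ⟨u, h, SX⟩ := hX
  obtain ⟨u', f, SY⟩ := hY
  obtain ⟨Φ, h1, h2⟩ := prodEven SX SY hm hmm hE hE' hp
  refine decG_of h1 (by simp) (k1 := Sum.inl ⟨0, hn⟩) (k2 := Sum.inr ⟨0, hn⟩) (a := 1) (b := 2)
    (by simp) le_rfl (by norm_num) (by omega) ?_
  rw [pow_one]
  exact h2 _

theorem dec_odd {E E' : Type} [AddCommGroup E] [AddCommGroup E'] [Finite E] [Finite E']
    {G : Set E} {G' : Set E'} {n m m' : ℕ} (hX : Dec p G n) (hY : DecG p G' (n + 1)) (hn : 2 ≤ n)
    (hm : 1 ≤ m) (hmm : m ≤ m') (hE : Nat.card E = p ^ m) (hE' : Nat.card E' = p ^ m')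
    (hp : 5 ≤ p) : DecG p (GS G G') (n + (n + 1)) := by
  obtain ⟨u, h, SX⟩ := hX
  obtain ⟨u', f, SY, k1, k2, a, b, hk, ha, hb, hab, ht⟩ := hY
  have SY' := SY.reindex (fun o : Option (Fin n) => o.elim k2 k2.succAbove) (by
    intro k
    rcases Fin.eq_self_or_eq_succAbove k2 k with h1 | ⟨j, h1⟩
    · exact ⟨none, h1.symm⟩
    · exact ⟨some j, h1.symm⟩)
  obtain ⟨i0, hi0⟩ := Fin.exists_succAbove_eq hk
  obtain ⟨Φ, h1, h2⟩ := prodOdd SX SY' hm hmm hE hE' hp i0 ha hb hab (by
    show Tr (f k2 ^ b * f (k2.succAbove i0) ^ a)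
    rw [hi0]; exact ht)
  have : Nontrivial (Fin n) := Fin.nontrivial_iff_two_le.2 hn
  obtain ⟨i1, hi1⟩ := exists_ne i0
  refine decG_of h1 (by simp) (k1 := Sum.inl i1) (k2 := Sum.inr (some i1)) (a := 1) (b := 2)
    (by simp) le_rfl (by norm_num) (by omega) ?_
  rw [pow_one]
  exact h2 i1 hi1

/-! ### Small systems -/

theorem permCongr_mul' {X Y : Type} (e : X ≃ Y) (φ ψ : Equiv.Perm X) :
    e.permCongr φ * e.permCongr ψ = e.permCongr (φ * ψ) := by
  ext y
  simp [Equiv.permCongr_apply]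

theorem permCongr_pow {X Y : Type} (e : X ≃ Y) (φ : Equiv.Perm X) (n : ℕ) :
    e.permCongr φ ^ n = e.permCongr (φ ^ n) := by
  induction n with
  | zero => ext y; simp
  | succ n ih =>
    rw [pow_succ, ih, pow_succ, permCongr_mul']

theorem Tr.conj {X Y : Type} (e : X ≃ Y) {φ : Equiv.Perm X} (hφ : Tr φ) :
    Tr (e.permCongr φ) := by
  intro x y
  obtain ⟨n, hn⟩ := hφ (e.symm x) (e.symm y)
  refine ⟨n, ?_⟩
  rw [permCongr_pow, Equiv.permCongr_apply, hn, Equiv.apply_symm_apply]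

theorem hd_of_good2 {ι J D X : Type} [Fintype ι] [DecidableEq ι] {gen : ι → D → ZMod p}
    {u : X → ZMod p} {pos : X → D → ZMod p} {h : ι → Equiv.Perm X} {g : ι → X → ι}
    {L : J → (ι → ZMod p) →ₗ[ZMod p] ZMod p} (hg : Good2 gen u pos h g L) :
    HD (Set.range gen) (fun v => u ((Equiv.ofBijective pos hg.bij).symm v))
      (fun k => (Equiv.ofBijective pos hg.bij).permCongr (h k)) := by
  set e := Equiv.ofBijective pos hg.bij with he
  have hstep : ∀ k v, e.permCongr (h k) v - v = gen (g k (e.symm v)) := by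
    intro k v
    rw [Equiv.permCongr_apply]
    show pos (h k (e.symm v)) - v = _
    rw [hg.step]
    have h1 : pos (e.symm v) = v := e.apply_symm_apply v
    rw [h1]
    abel
  refine ⟨?_, ?_, ?_, ?_⟩
  · intro k v
    rw [hstep]
    exact ⟨_, rfl⟩
  · rintro v _ ⟨a, rfl⟩
    obtain ⟨i, hi⟩ := hg.surj (e.symm v) a
    exact ⟨i, by rw [hstep, hi]⟩
  · intro k v
    rw [Equiv.permCongr_apply, Equiv.symm_apply_apply, hg.hu]
  · intro k
    exact (hg.tr _ _ (Word.gen h k) (fun j => hg.Lne j k)).conj e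

theorem Word.pow {ι X : Type} [DecidableEq ι] (h : ι → Equiv.Perm X) (i : ι) (t : ℕ) :
    Word (p := p) h ((t : ZMod p) • Pi.single i 1) (h i ^ t) := by
  induction t with
  | zero => simpa using Word.one
  | succ t ih =>
    rw [pow_succ']
    have := (Word.gen (p := p) h i).mul ih
    have e1 : ((t + 1 : ℕ) : ZMod p) • (Pi.single i 1 : ι → ZMod p) =
        Pi.single i 1 + (t : ZMod p) • Pi.single i 1 := by
      push_cast
      rw [add_smul, one_smul, add_comm]
    rw [e1]
    exact this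

theorem gp_of_good2 {ι J D X : Type} [Fintype ι] [DecidableEq ι] [Fintype J] [DecidableEq J]
    {gen : ι → D → ZMod p}
    {u : X → ZMod p} {pos : X → D → ZMod p} {h : ι → Equiv.Perm X} {g : ι → X → ι}
    {L : J → (ι → ZMod p) →ₗ[ZMod p] ZMod p} (hg : Good2 gen u pos h g L) (j0 : J)
    (hj0 : ∀ m, L j0 m = ∑ i, m i) (hJ : Fintype.card J + 2 ≤ p) (i j : ι) :
    ∃ t, 1 ≤ t ∧ 1 + t < p ∧ Tr (h j ^ t * h i ^ 1) := by
  let bad : Finset (ZMod p) := (univ.erase j0).image
    (fun j' => - L j' (Pi.single i 1) / L j' (Pi.single j 1))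
  let cand : Finset (ZMod p) := (Ico 1 (p - 1)).image (fun r : ℕ => (r : ZMod p))
  have hbad : bad.card ≤ Fintype.card J - 1 := by
    refine card_image_le.trans ?_
    rw [card_erase_of_mem (mem_univ _), card_univ]
  have hcand : cand.card = p - 2 := by
    rw [card_image_of_injOn, Nat.card_Ico]
    · omega
    · intro a ha b hb hab
      rw [ZMod.natCast_eq_natCast_iff'] at hab
      have ha' := mem_Ico.1 (mem_coe.1 ha)
      have hb' := mem_Ico.1 (mem_coe.1 hb)
      rwa [Nat.mod_eq_of_lt (by omega), Nat.mod_eq_of_lt (by omega)] at hab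
  have hJ1 : 0 < Fintype.card J := Fintype.card_pos_iff.2 ⟨j0⟩
  obtain ⟨z, hz1, hz2⟩ := exists_mem_notMem_of_card_lt_card (s := bad) (t := cand) (by omega)
  obtain ⟨t, ht, rfl⟩ := mem_image.1 hz1
  have ht' := mem_Ico.1 ht
  refine ⟨t, ht'.1, by omega, ?_⟩
  refine hg.tr _ _ ((Word.pow (p := p) h j t).mul (Word.pow h i 1)) ?_
  intro j' h0
  rw [map_add, map_smul, map_smul, Nat.cast_one, one_smul, smul_eq_mul] at h0
  by_cases hj : j' = j0
  · subst hj
    rw [hj0, hj0, sum_pi_single', sum_pi_single'] at h0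
    simp only [mem_univ, if_true, mul_one] at h0
    have h1 : ((t + 1 : ℕ) : ZMod p) = 0 := by push_cast; exact h0
    rw [ZMod.natCast_eq_zero_iff] at h1
    have := Nat.le_of_dvd (by omega) h1
    omega
  · apply hz2
    refine mem_image.2 ⟨j', mem_erase.2 ⟨hj, mem_univ _⟩, ?_⟩
    rw [div_eq_iff (hg.Lne j' j)]
    linear_combination -h0

theorem decG_of_good2 {ι J D X : Type} [Fintype ι] [DecidableEq ι] [Fintype J] [DecidableEq J]
    {gen : ι → D → ZMod p}
    {u : X → ZMod p} {pos : X → D → ZMod p} {h : ι → Equiv.Perm X} {g : ι → X → ι}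
    {L : J → (ι → ZMod p) →ₗ[ZMod p] ZMod p} (hg : Good2 gen u pos h g L) (j0 : J)
    (hj0 : ∀ m, L j0 m = ∑ i, m i) (hJ : Fintype.card J + 2 ≤ p) (i j : ι) (hij : i ≠ j) {n : ℕ}
    (hn : Fintype.card ι = n) : DecG p (Set.range gen) n := by
  obtain ⟨t, h1, h2, h3⟩ := gp_of_good2 hg j0 hj0 hJ i j
  refine decG_of (hd_of_good2 hg) hn hij le_rfl h1 h2 ?_
  rw [permCongr_pow, permCongr_pow, permCongr_mul']
  exact h3.conj _

/-- Dimension one. -/
theorem good1 : Good2 (p := p) (ι := Unit) (J := Unit) (D := Unit) (X := ZMod p)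
    (fun _ => Pi.single () 1) id (fun x _ => x) (fun _ => Equiv.addRight 1) (fun _ _ => ())
    (fun _ => ∑ i, LinearMap.proj (R := ZMod p) (φ := fun _ : Unit => ZMod p) i) := by
  have hL : ∀ m : Unit → ZMod p,
      (∑ i, LinearMap.proj (R := ZMod p) (φ := fun _ : Unit => ZMod p) i) m = m () := by
    intro m
    rw [LinearMap.sum_apply]
    simp
  refine ⟨⟨?_, ?_⟩, ?_, ?_, ?_, ?_, ?_⟩
  · intro x y hxy
    exact congrFun hxy ()
  · intro f
    exact ⟨f (), funext fun _ => rfl⟩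
  · intro i x
    funext e
    show x + 1 = x + (Pi.single () 1 : Unit → ZMod p) e
    rw [Pi.single_eq_same]
  · intro i x
    rfl
  · intro x a
    exact ⟨(), rfl⟩
  · intro j i
    rw [hL, Pi.single_eq_same]
    exact one_ne_zero
  · intro m φ hw hm
    have key : ∀ x, φ x = x + m () := by
      clear hm
      induction hw with
      | one => intro x; simp
      | step i m φ _ ih =>
        intro x
        rw [Equiv.Perm.mul_apply, ih]
        show x + m () + 1 = x + ((Pi.single () 1 : Unit → ZMod p) + m) ()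
        rw [Pi.add_apply, Pi.single_eq_same]
        ring
    have hm0 : m () ≠ 0 := by
      have := hm ()
      rwa [hL] at this
    have keyn : ∀ (n : ℕ) x, (φ ^ n) x = x + n * m () := by
      intro n
      induction n with
      | zero => intro x; simp
      | succ n ih =>
        intro x
        rw [pow_succ', Equiv.Perm.mul_apply, ih, key]
        push_cast
        ring
    intro x y
    refine ⟨((y - x) / m ()).val, ?_⟩
    rw [keyn, ZMod.natCast_zmod_val, div_mul_cancel₀ _ hm0]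
    ring

theorem range_lift {ι D : Type} [DecidableEq D] {gen : ι → D → ZMod p}
    (hg : Set.range gen = Set.range (fun e : D => (Pi.single e 1 : D → ZMod p))) :
    Set.range (fun o : Option ι => o.elim (Pi.single none 1) (fun i => lift0 (gen i))) =
      Set.range (fun e : Option D => (Pi.single e 1 : Option D → ZMod p)) := by
  ext f
  constructor
  · rintro ⟨o, rfl⟩
    cases o with
    | none => exact ⟨none, rfl⟩
    | some i =>
      have h1 : gen i ∈ Set.range gen := ⟨i, rfl⟩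
      rw [hg] at h1
      obtain ⟨e, he⟩ := h1
      refine ⟨some e, ?_⟩
      show _ = lift0 (gen i)
      rw [← he]
      exact (lift0_single e).symm
  · rintro ⟨o, rfl⟩
    cases o with
    | none => exact ⟨none, rfl⟩
    | some e =>
      have h1 : (Pi.single e 1 : D → ZMod p) ∈ Set.range gen := by
        rw [hg]; exact ⟨e, rfl⟩
      obtain ⟨i, hi⟩ := h1
      refine ⟨some i, ?_⟩
      show lift0 (gen i) = _
      rw [hi]
      exact lift0_single e

end Pool.Agent.TH486.LAC
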