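import Pool.Agent.TH486.LAC.Base

set_option autoImplicit false

/-!
Decompositions in all dimensions.
-/

namespace Pool.Agent.TH486.LAC

open Finset Module

variable {p : ℕ} [Fact p.Prime]

/-- The basis has a decomposition. -/
def DA0 (p : ℕ) [Fact p.Prime] (d : ℕ) : Prop :=
  ∃ (E : Type) (_ : AddCommGroup E) (_ : Module (ZMod p) E) (_ : Finite E) (D : Type)
    (_ : Fintype D) (b : Basis D (ZMod p) E), Fintype.card D = d ∧ Dec p (Set.range b) d

/-- The basis has a decomposition with a good pair. -/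
def DA (p : ℕ) [Fact p.Prime] (d : ℕ) : Prop :=
  ∃ (E : Type) (_ : AddCommGroup E) (_ : Module (ZMod p) E) (_ : Finite E) (D : Type)
    (_ : Fintype D) (b : Basis D (ZMod p) E), Fintype.card D = d ∧ DecG p (Set.range b) d

/-- A basis with one more element `2 a - b`. -/
def DS (p : ℕ) [Fact p.Prime] (d : ℕ) : Prop :=
  ∃ (E : Type) (_ : AddCommGroup E) (_ : Module (ZMod p) E) (_ : Finite E) (D : Type)
    (_ : Fintype D) (b : Basis D (ZMod p) E) (D0 D1 : D), D0 ≠ D1 ∧ Fintype.card D = d ∧
      DecG p (insert ((2 : ZMod p) • b D0 - b D1) (Set.range b)) (d + 1)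

theorem DA.da0 {d : ℕ} (h : DA p d) : DA0 p d := by
  obtain ⟨E, i1, i2, i3, D, i4, b, h1, h2⟩ := h
  exact ⟨E, i1, i2, i3, D, i4, b, h1, h2.dec⟩

theorem card_of_basis {E D : Type} [AddCommGroup E] [Module (ZMod p) E] [Finite E] [Fintype D]
    (b : Basis D (ZMod p) E) : Nat.card E = p ^ Fintype.card D := by
  have h4 : Nat.card E = Nat.card (ZMod p) ^ finrank (ZMod p) E := Module.natCard_eq_pow_finrank
  rw [Nat.card_zmod, finrank_eq_card_basis b] at h4
  exact h4

theorem GS_basis {E E' D D' : Type} [AddCommGroup E] [Module (ZMod p) E] [AddCommGroup E']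
    [Module (ZMod p) E'] (b : Basis D (ZMod p) E) (b' : Basis D' (ZMod p) E') :
    GS (Set.range b) (Set.range b') = Set.range (b.prod b') := by
  ext ⟨x, y⟩
  constructor
  · rintro (⟨⟨i, h1⟩, h2⟩ | ⟨h1, ⟨i, h2⟩⟩)
    · refine ⟨Sum.inl i, ?_⟩
      rw [Basis.prod_apply]
      exact Prod.ext h1 h2.symm
    · refine ⟨Sum.inr i, ?_⟩
      rw [Basis.prod_apply]
      exact Prod.ext h1.symm h2
  · rintro ⟨i | i, h⟩
    · rw [Basis.prod_apply] at h
      have h' : ((b i : E), (0 : E')) = (x, y) := h
      obtain ⟨h1, h2⟩ := Prod.mk.inj h'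
      exact Or.inl ⟨⟨i, h1⟩, h2.symm⟩
    · rw [Basis.prod_apply] at h
      have h' : ((0 : E), (b' i : E')) = (x, y) := h
      obtain ⟨h1, h2⟩ := Prod.mk.inj h'
      exact Or.inr ⟨h1.symm, ⟨i, h2⟩⟩

theorem GS_insert_right {E E' : Type} [AddCommGroup E] [AddCommGroup E'] (G : Set E)
    (G' : Set E') (w : E') : GS G (insert w G') = insert ((0 : E), w) (GS G G') := by
  ext ⟨x, y⟩
  constructor
  · rintro (⟨h1, h2⟩ | ⟨h1, h2 | h2⟩)
    · exact Or.inr (Or.inl ⟨h1, h2⟩)
    · exact Or.inl (Prod.ext h1 h2)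
    · exact Or.inr (Or.inr ⟨h1, h2⟩)
  · rintro (h | ⟨h1, h2⟩ | ⟨h1, h2⟩)
    · obtain ⟨h1, h2⟩ := Prod.mk.inj h
      exact Or.inr ⟨h1, Or.inl h2⟩
    · exact Or.inl ⟨h1, h2⟩
    · exact Or.inr ⟨h1, Or.inr h2⟩

theorem GS_insert_left {E E' : Type} [AddCommGroup E] [AddCommGroup E'] (G : Set E)
    (G' : Set E') (w : E) : GS (insert w G) G' = insert (w, (0 : E')) (GS G G') := by
  ext ⟨x, y⟩
  constructor
  · rintro (⟨h1 | h1, h2⟩ | ⟨h1, h2⟩)
    · exact Or.inl (Prod.ext h1 h2)
    · exact Or.inr (Or.inl ⟨h1, h2⟩)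
    · exact Or.inr (Or.inr ⟨h1, h2⟩)
  · rintro (h | ⟨h1, h2⟩ | ⟨h1, h2⟩)
    · obtain ⟨h1, h2⟩ := Prod.mk.inj h
      exact Or.inl ⟨Or.inl h1, h2⟩
    · exact Or.inl ⟨Or.inr h1, h2⟩
    · exact Or.inr ⟨h1, h2⟩

theorem da_even (hp : 5 ≤ p) {m : ℕ} (hm : 1 ≤ m) (h : DA0 p m) : DA p (m + m) := by
  obtain ⟨E, _, _, _, D, _, b, h1, h2⟩ := h
  have hc := card_of_basis b
  rw [h1] at hc
  have := dec_even h2 h2 hm hm le_rfl hc hc hp
  rw [GS_basis] at this
  exact ⟨E × E, inferInstance, inferInstance, inferInstance, D ⊕ D, inferInstance, b.prod b,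
    by rw [Fintype.card_sum, h1], this⟩

theorem da_odd (hp : 5 ≤ p) {m : ℕ} (hm : 2 ≤ m) (h : DA0 p m) (h' : DA p (m + 1)) :
    DA p (m + (m + 1)) := by
  obtain ⟨E, _, _, _, D, _, b, h1, h2⟩ := h
  obtain ⟨E', _, _, _, D', _, b', h1', h2'⟩ := h'
  have hc := card_of_basis b
  rw [h1] at hc
  have hc' := card_of_basis b'
  rw [h1'] at hc'
  have := dec_odd h2 h2' hm (by omega) (by omega) hc hc' hp
  rw [GS_basis] at this
  exact ⟨E × E', inferInstance, inferInstance, inferInstance, D ⊕ D', inferInstance, b.prod b',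
    by rw [Fintype.card_sum, h1, h1'], this⟩

theorem ds_odd (hp : 5 ≤ p) {m : ℕ} (hm : 2 ≤ m) (h : DA0 p m) (h' : DS p m) :
    DS p (m + m) := by
  obtain ⟨E, _, _, _, D, _, b, h1, h2⟩ := h
  obtain ⟨E', _, _, _, D', _, b', D0, D1, hD, h1', h2'⟩ := h'
  have hc := card_of_basis b
  rw [h1] at hc
  have hc' := card_of_basis b'
  rw [h1'] at hc'
  have := dec_odd h2 h2' hm (by omega) le_rfl hc hc' hp
  rw [GS_insert_right, GS_basis] at this
  have e1 : ((0 : E), (2 : ZMod p) • b' D0 - b' D1) =
      (2 : ZMod p) • (b.prod b') (Sum.inr D0) - (b.prod b') (Sum.inr D1) := by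
    rw [Basis.prod_apply, Basis.prod_apply]
    refine Prod.ext ?_ rfl
    show (0 : E) = (2 : ZMod p) • (0 : E) - 0
    rw [smul_zero, sub_zero]
  rw [e1] at this
  exact ⟨E × E', inferInstance, inferInstance, inferInstance, D ⊕ D', inferInstance, b.prod b',
    Sum.inr D0, Sum.inr D1, fun h => hD (Sum.inr.inj h),
    by rw [Fintype.card_sum, h1, h1'], this⟩

theorem ds_even (hp : 5 ≤ p) {m : ℕ} (hm : 2 ≤ m) (h : DS p m) (h' : DA0 p (m + 1)) :
    DS p (m + (m + 1)) := by
  obtain ⟨E, _, _, _, D, _, b, D0, D1, hD, h1, h2⟩ := h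
  obtain ⟨E', _, _, _, D', _, b', h1', h2'⟩ := h'
  have hc := card_of_basis b
  rw [h1] at hc
  have hc' := card_of_basis b'
  rw [h1'] at hc'
  have := dec_even h2.dec h2' (by omega) (by omega) (by omega) hc hc' hp
  rw [GS_insert_left, GS_basis] at this
  have e1 : ((2 : ZMod p) • b D0 - b D1, (0 : E')) =
      (2 : ZMod p) • (b.prod b') (Sum.inl D0) - (b.prod b') (Sum.inl D1) := by
    rw [Basis.prod_apply, Basis.prod_apply]
    refine Prod.ext rfl ?_
    show (0 : E') = (2 : ZMod p) • (0 : E') - 0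
    rw [smul_zero, sub_zero]
  have e2 : m + 1 + (m + 1) = m + (m + 1) + 1 := by omega
  rw [e1, e2] at this
  exact ⟨E × E', inferInstance, inferInstance, inferInstance, D ⊕ D', inferInstance, b.prod b',
    Sum.inl D0, Sum.inl D1, fun h => hD (Sum.inl.inj h),
    by rw [Fintype.card_sum, h1, h1'], this⟩

theorem basisFun_range (D : Type) [Fintype D] [DecidableEq D] :
    Set.range (Pi.basisFun (ZMod p) D) =
      Set.range (fun e : D => (Pi.single e 1 : D → ZMod p)) := by
  congr 1
  funext e
  exact Pi.basisFun_apply (ZMod p) D e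

theorem da0_one : DA0 p 1 := by
  refine ⟨Unit → ZMod p, inferInstance, inferInstance, inferInstance, Unit, inferInstance,
    Pi.basisFun (ZMod p) Unit, by simp, ?_⟩
  have h1 := dec_of (hd_of_good2 (good1 (p := p))) (n := 1) (by simp)
  rw [basisFun_range]
  exact h1

theorem da_three (hp : 5 ≤ p) : DA p 3 := by
  obtain ⟨u1, pos1, h1, g1, L1, hg1, hs1⟩ := good2_step (good1 (p := p)) (by simp; omega)
    (by simp; omega)
  obtain ⟨u2, pos2, h2, g2, L2, hg2, hs2⟩ := good2_step hg1 (by simp; omega)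
    (by simp; omega)
  refine ⟨Option (Option Unit) → ZMod p, inferInstance, inferInstance, inferInstance,
    Option (Option Unit), inferInstance, Pi.basisFun (ZMod p) _, by simp, ?_⟩
  have h3 := decG_of_good2 hg2 none hs2 (by simp; omega) none (some none) (by simp) (n := 3)
    (by simp)
  rw [basisFun_range]
  rw [range_lift (range_lift rfl)] at h3
  exact h3

theorem gen3_range : Set.range (gen3 (p := p)) =
    insert ((2 : ZMod p) • Pi.single true 1 - Pi.single false 1)
      (Set.range (fun e : Bool => (Pi.single e 1 : Bool → ZMod p))) := by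
  ext f
  constructor
  · rintro ⟨i, rfl⟩
    fin_cases i
    · exact Or.inr ⟨true, rfl⟩
    · exact Or.inr ⟨false, rfl⟩
    · exact Or.inl rfl
  · rintro (rfl | ⟨e, rfl⟩)
    · exact ⟨2, rfl⟩
    · cases e with
      | true => exact ⟨0, rfl⟩
      | false => exact ⟨1, rfl⟩

theorem ds_two (hp : 5 ≤ p) : DS p 2 := by
  obtain ⟨u, pos, L, hg, hs⟩ := good3 (p := p) (by omega)
  refine ⟨Bool → ZMod p, inferInstance, inferInstance, inferInstance, Bool, inferInstance,
    Pi.basisFun (ZMod p) _, true, false, by simp, by simp, ?_⟩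
  have h3 := decG_of_good2 hg true hs (by simp; omega) 0 1 (by simp) (n := 3) (by simp)
  rw [gen3_range] at h3
  rw [basisFun_range, Pi.basisFun_apply, Pi.basisFun_apply]
  exact h3

theorem range_lift' {ι D : Type} [DecidableEq D] {gen : ι → D → ZMod p} {D0 D1 : D}
    (hg : Set.range gen = insert ((2 : ZMod p) • Pi.single D0 1 - Pi.single D1 1)
      (Set.range (fun e : D => (Pi.single e 1 : D → ZMod p)))) :
    Set.range (fun o : Option ι => o.elim (Pi.single none 1) (fun i => lift0 (gen i))) =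
      insert ((2 : ZMod p) • Pi.single (some D0) 1 - Pi.single (some D1) 1)
      (Set.range (fun e : Option D => (Pi.single e 1 : Option D → ZMod p))) := by
  ext f
  constructor
  · rintro ⟨o, rfl⟩
    cases o with
    | none => exact Or.inr ⟨none, rfl⟩
    | some i =>
      have h1 : gen i ∈ Set.range gen := ⟨i, rfl⟩
      rw [hg] at h1
      rcases h1 with h1 | ⟨e, he⟩
      · left
        show lift0 (gen i) = _
        rw [h1, lift0_special]
      · right
        refine ⟨some e, ?_⟩
        show _ = lift0 (gen i)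
        rw [← he]
        exact (lift0_single e).symm
  · rintro (rfl | ⟨o, rfl⟩)
    · have h1 : (2 : ZMod p) • Pi.single D0 1 - Pi.single D1 1 ∈ Set.range gen := by
        rw [hg]; exact Or.inl rfl
      obtain ⟨i, hi⟩ := h1
      refine ⟨some i, ?_⟩
      show lift0 (gen i) = _
      rw [hi, lift0_special]
    · cases o with
      | none => exact ⟨none, rfl⟩
      | some e =>
        have h1 : (Pi.single e 1 : D → ZMod p) ∈ Set.range gen := by
          rw [hg]; exact Or.inr ⟨e, rfl⟩
        obtain ⟨i, hi⟩ := h1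
        refine ⟨some i, ?_⟩
        show lift0 (gen i) = _
        rw [hi]
        exact lift0_single e

theorem ds_three (hp : 5 ≤ p) : DS p 3 := by
  obtain ⟨u, pos, L, hg, hs⟩ := good3 (p := p) (by omega)
  obtain ⟨u1, pos1, h1, g1, L1, hg1, hs1⟩ := good2_step hg (by simp; omega) (by simp; omega)
  refine ⟨Option Bool → ZMod p, inferInstance, inferInstance, inferInstance, Option Bool,
    inferInstance, Pi.basisFun (ZMod p) _, some true, some false, by simp, by simp, ?_⟩
  have h3 := decG_of_good2 hg1 none hs1 (by simp; omega) none (some 0) (by simp) (n := 4)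
    (by simp)
  rw [range_lift' gen3_range] at h3
  rw [basisFun_range, Pi.basisFun_apply, Pi.basisFun_apply]
  exact h3

theorem da_all (hp : 5 ≤ p) (d : ℕ) (hd : 2 ≤ d) : DA p d := by
  induction d using Nat.strong_induction_on with
  | _ d ih =>
    rcases Nat.lt_or_ge d 4 with h4 | h4
    · rcases Nat.lt_or_ge d 3 with h3 | h3
      · have : d = 1 + 1 := by omega
        rw [this]
        exact da_even hp le_rfl da0_one
      · have : d = 3 := by omega
        rw [this]
        exact da_three hp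
    · rcases Nat.even_or_odd' d with ⟨m, hm | hm⟩
      · have h1 := ih m (by omega) (by omega)
        have h2 := da_even hp (by omega) h1.da0
        have h3 : m + m = d := by omega
        rwa [h3] at h2
      · have h1 := ih m (by omega) (by omega)
        have h1' := ih (m + 1) (by omega) (by omega)
        have h2 := da_odd hp (by omega) h1.da0 h1'
        have h3 : m + (m + 1) = d := by omega
        rwa [h3] at h2

theorem da0_all (hp : 5 ≤ p) (d : ℕ) (hd : 1 ≤ d) : DA0 p d := by
  rcases Nat.lt_or_ge d 2 with h | h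
  · have : d = 1 := by omega
    rw [this]; exact da0_one
  · exact (da_all hp d h).da0

theorem ds_all (hp : 5 ≤ p) (d : ℕ) (hd : 2 ≤ d) : DS p d := by
  induction d using Nat.strong_induction_on with
  | _ d ih =>
    rcases Nat.lt_or_ge d 4 with h4 | h4
    · rcases Nat.lt_or_ge d 3 with h3 | h3
      · have : d = 2 := by omega
        rw [this]
        exact ds_two hp
      · have : d = 3 := by omega
        rw [this]
        exact ds_three hp
    · rcases Nat.even_or_odd' d with ⟨m, hm | hm⟩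
      · have h1 := ih m (by omega) (by omega)
        have h2 := ds_odd hp (by omega) (da0_all hp m (by omega)) h1
        have h3 : m + m = d := by omega
        rwa [h3] at h2
      · have h1 := ih m (by omega) (by omega)
        have h2 := ds_even hp (by omega) h1 (da0_all hp (m + 1) (by omega))
        have h3 : m + (m + 1) = d := by omega
        rwa [h3] at h2

end Pool.Agent.TH486.LAC
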