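import Pool.Agent.TH486.LAC.Rot

set_option autoImplicit false

/-!
A permutation of a product of cycles which mixes three permutations.
-/

namespace Pool.Agent.TH486.LAC

open Finset

variable {p : ℕ} [Fact p.Prime]

theorem val_add_nat {N : ℕ} [NeZero N] (s : ZMod N) (i : ℕ) :
    (s + (i : ZMod N)).val = (s.val + i) % N := by
  rw [ZMod.val_add, ZMod.val_natCast, Nat.add_mod_mod]

theorem tr_of_sameCycle {Z : Type} [Finite Z] {H : Equiv.Perm Z} (h : ∀ x y, H.SameCycle x y) :
    Tr H := by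
  intro x y
  obtain ⟨i, hi⟩ := h x y
  have hpos : 0 < orderOf H := orderOf_pos H
  refine ⟨(i % orderOf H).toNat, ?_⟩
  have h1 : ((i % (orderOf H : ℤ)).toNat : ℤ) = i % orderOf H :=
    Int.toNat_of_nonneg (Int.emod_nonneg _ (by omega))
  rw [← zpow_natCast, h1, zpow_mod_orderOf, hi]

theorem sameCycle_of_pow {Z : Type} {H : Equiv.Perm Z} {x y : Z} {n : ℕ} (h : (H ^ n) x = y) :
    H.SameCycle x y := ⟨n, by rw [zpow_natCast]; exact h⟩

theorem event {X Y : Type} [Finite X] [Finite Y] {N a b : ℕ} [NeZero N]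
    {h : Equiv.Perm X} {f1 f2 : Equiv.Perm Y} (hφ : Tr (f2 ^ b * f1 ^ a))
    (ha : 1 ≤ a) (hb : 1 ≤ b) (hab : a + b < p) (hpN : p ≤ N)
    {PX : X → ZMod N} (hinj : Function.Injective PX) (hPX : ∀ x, PX (h x) = PX x + 1)
    {P1 : Y → ZMod N} (hP1 : ∀ y, P1 (f1 y) = P1 y + 1)
    {P2 : Y → ZMod N} (hP2 : ∀ y, P2 (f2 y) = P2 y + 1)
    (hres : ∀ x y, (PX x + P1 y).val % p = (PX x + P2 y).val % p)
    (H : Equiv.Perm (X × Y))
    (hH : ∀ x y, H (x, y) = if (PX x + P1 y).val < a then (x, f1 y)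
      else if a ≤ (PX x + P2 y).val ∧ (PX x + P2 y).val < a + b then (x, f2 y) else (h x, y)) :
    Tr H := by
  -- run of `f1`
  have R1 : ∀ (j : ℕ) (x : X) (y : Y), (PX x + P1 y).val + j ≤ a →
      (H ^ j) (x, y) = (x, (f1 ^ j) y) ∧
        (PX x + P1 ((f1 ^ j) y)).val = (PX x + P1 y).val + j := by
    intro j
    induction j with
    | zero => intro x y _; exact ⟨rfl, rfl⟩
    | succ j ih =>
      intro x y hj
      obtain ⟨h1, h2⟩ := ih x y (by omega)
      have h3 : (PX x + P1 ((f1 ^ j) y)).val < a := by rw [h2]; omega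
      constructor
      · rw [pow_succ', Equiv.Perm.mul_apply, h1, hH, if_pos h3, pow_succ', Equiv.Perm.mul_apply]
      · rw [pow_succ', Equiv.Perm.mul_apply, hP1, ← add_assoc]
        have h4 := val_add_nat (PX x + P1 ((f1 ^ j) y)) 1
        rw [Nat.cast_one] at h4
        rw [h4, h2, Nat.mod_eq_of_lt (by omega)]
        omega
  -- run of `f2`
  have R2 : ∀ (j : ℕ) (x : X) (y : Y), a ≤ (PX x + P2 y).val → (PX x + P2 y).val + j ≤ a + b →
      (H ^ j) (x, y) = (x, (f2 ^ j) y) ∧
        (PX x + P2 ((f2 ^ j) y)).val = (PX x + P2 y).val + j := by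
    intro j
    induction j with
    | zero => intro x y _ _; exact ⟨rfl, rfl⟩
    | succ j ih =>
      intro x y ha' hj
      obtain ⟨h1, h2⟩ := ih x y ha' (by omega)
      have h5 := hres x ((f2 ^ j) y)
      rw [h2, Nat.mod_eq_of_lt (show (PX x + P2 y).val + j < p by omega)] at h5
      have h6 := Nat.mod_le (PX x + P1 ((f2 ^ j) y)).val p
      have h3 : ¬ (PX x + P1 ((f2 ^ j) y)).val < a := by omega
      have h3' : a ≤ (PX x + P2 ((f2 ^ j) y)).val ∧ (PX x + P2 ((f2 ^ j) y)).val < a + b := by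
        rw [h2]; omega
      constructor
      · rw [pow_succ', Equiv.Perm.mul_apply, h1, hH, if_neg h3, if_pos h3', pow_succ',
          Equiv.Perm.mul_apply]
      · rw [pow_succ', Equiv.Perm.mul_apply, hP2, ← add_assoc]
        have h4 := val_add_nat (PX x + P2 ((f2 ^ j) y)) 1
        rw [Nat.cast_one] at h4
        rw [h4, h2, Nat.mod_eq_of_lt (by omega)]
        omega
  -- run of `h`
  have R3 : ∀ (t : ℕ) (x : X) (y : Y), (∀ i < t, ¬ (PX x + P1 y + (i : ZMod N)).val < a ∧
      ¬ (a ≤ (PX x + P2 y + (i : ZMod N)).val ∧ (PX x + P2 y + (i : ZMod N)).val < a + b)) →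
      (H ^ t) (x, y) = ((h ^ t) x, y) := by
    intro t
    induction t with
    | zero => intro x y _; rfl
    | succ t ih =>
      intro x y ht
      have h1 := ih x y (fun i hi => ht i (by omega))
      obtain ⟨h2, h3⟩ := ht t (by omega)
      have e1 : PX ((h ^ t) x) + P1 y = PX x + P1 y + (t : ZMod N) := by
        rw [pos_pow hPX]; ring
      have e2 : PX ((h ^ t) x) + P2 y = PX x + P2 y + (t : ZMod N) := by
        rw [pos_pow hPX]; ring
      rw [pow_succ', Equiv.Perm.mul_apply, h1, hH, e1, e2, if_neg h2, if_neg h3, pow_succ',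
        Equiv.Perm.mul_apply]
  -- from the end of the second event
  have L2 : ∀ (x : X) (y : Y), (PX x + P2 y).val = a + b →
      ∃ x', PX x' + P1 y = 0 ∧ H.SameCycle (x, y) (x', y) := by
    intro x y hxy
    have h1 := hres x y
    rw [hxy, Nat.mod_eq_of_lt hab] at h1
    have h2 := Nat.mod_le (PX x + P1 y).val p
    have h3 := ZMod.val_lt (PX x + P1 y)
    have h4 := R3 (N - (PX x + P1 y).val) x y (by
      intro i hi
      rw [val_add_nat, val_add_nat, hxy, Nat.mod_eq_of_lt (by omega),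
        Nat.mod_eq_of_lt (by omega)]
      omega)
    refine ⟨_, ?_, sameCycle_of_pow h4⟩
    rw [pos_pow hPX, Nat.cast_sub h3.le, ZMod.natCast_self, ZMod.natCast_zmod_val]
    ring
  -- from an `A`-state to the next
  have C : ∀ (x : X) (y : Y), PX x + P1 y = 0 →
      ∃ x', PX x' + P1 ((f2 ^ b * f1 ^ a) y) = 0 ∧
        H.SameCycle (x, y) (x', (f2 ^ b * f1 ^ a) y) := by
    intro x y hxy
    obtain ⟨h1, h2⟩ := R1 a x y (by rw [hxy, ZMod.val_zero]; omega)
    rw [hxy, ZMod.val_zero, zero_add] at h2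
    set y1 := (f1 ^ a) y with hy1
    have h3 := hres x y1
    rw [h2, Nat.mod_eq_of_lt (show a < p by omega)] at h3
    have h5 := ZMod.val_lt (PX x + P2 y1)
    have h6 := Nat.mod_le (PX x + P2 y1).val p
    -- time until the second event
    obtain ⟨t, ht1, ht2⟩ : ∃ t : ℕ, (PX x + P2 y1 + (t : ZMod N)).val = a ∧
        ∀ i < t, ¬ (PX x + P1 y1 + (i : ZMod N)).val < a ∧
      ¬ (a ≤ (PX x + P2 y1 + (i : ZMod N)).val ∧ (PX x + P2 y1 + (i : ZMod N)).val < a + b) := by
      rcases Nat.lt_or_ge a (PX x + P2 y1).val with h7 | h7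
      · have h8 : a + p ≤ (PX x + P2 y1).val := by
          have h9 := Nat.div_add_mod (PX x + P2 y1).val p
          rw [← h3] at h9
          have h10 : 0 < (PX x + P2 y1).val / p := by
            rcases Nat.eq_zero_or_pos ((PX x + P2 y1).val / p) with h | h
            · rw [h, mul_zero] at h9; omega
            · exact h
          have h11 : p * 1 ≤ p * ((PX x + P2 y1).val / p) := Nat.mul_le_mul_left _ h10
          omega
        refine ⟨N + a - (PX x + P2 y1).val, ?_, ?_⟩
        · rw [val_add_nat]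
          have e1 : (PX x + P2 y1).val + (N + a - (PX x + P2 y1).val) = a + N := by omega
          rw [e1, Nat.add_mod_right, Nat.mod_eq_of_lt (by omega)]
        · intro i hi
          rw [val_add_nat, val_add_nat, h2, Nat.mod_eq_of_lt (show a + i < N by omega)]
          refine ⟨by omega, ?_⟩
          rcases Nat.lt_or_ge ((PX x + P2 y1).val + i) N with h9 | h9
          · rw [Nat.mod_eq_of_lt h9]
            omega
          · have e1 : (PX x + P2 y1).val + i = ((PX x + P2 y1).val + i - N) + N := by omega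
            rw [e1, Nat.add_mod_right, Nat.mod_eq_of_lt (by omega)]
            omega
      · refine ⟨0, ?_, fun i hi => absurd hi (by omega)⟩
        rw [Nat.cast_zero, add_zero]
        omega
    have h7 := R3 t x y1 ht2
    have h8 : (PX ((h ^ t) x) + P2 y1).val = a := by
      rw [← ht1, pos_pow hPX]
      congr 1
      ring
    obtain ⟨h9, h10⟩ := R2 b ((h ^ t) x) y1 (by omega) (by omega)
    obtain ⟨x', h11, h12⟩ := L2 ((h ^ t) x) ((f2 ^ b) y1) (by omega)
    refine ⟨x', h11, ?_⟩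
    exact ((sameCycle_of_pow h1).trans (sameCycle_of_pow h7)).trans
      ((sameCycle_of_pow h9).trans h12)
  -- every state is on the cycle of an `A`-state
  have D1 : ∀ (x : X) (y : Y), (PX x + P1 y).val < a →
      ∃ x' y', PX x' + P1 y' = 0 ∧ H.SameCycle (x, y) (x', y') := by
    intro x y hxy
    set j := (PX x + P1 y).val with hj
    have h1 : (f1 ^ j) ((f1 ^ j)⁻¹ y) = y := by
      rw [← Equiv.Perm.mul_apply, mul_inv_cancel, Equiv.Perm.one_apply]
    have h2 := pos_pow hP1 j ((f1 ^ j)⁻¹ y)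
    rw [h1] at h2
    have h3 : PX x + P1 ((f1 ^ j)⁻¹ y) = 0 := by
      have h4 : ((j : ℕ) : ZMod N) = PX x + P1 y := by rw [hj, ZMod.natCast_zmod_val]
      linear_combination -h2 - h4
    obtain ⟨h4, _⟩ := R1 j x ((f1 ^ j)⁻¹ y) (by rw [h3, ZMod.val_zero]; omega)
    rw [h1] at h4
    exact ⟨x, _, h3, (sameCycle_of_pow h4).symm⟩
  have D3 : ∀ (x : X) (y : Y), a ≤ (PX x + P2 y).val ∧ (PX x + P2 y).val < a + b →
      ∃ x' y', PX x' + P1 y' = 0 ∧ H.SameCycle (x, y) (x', y') := by
    intro x y hxy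
    obtain ⟨h1, h2⟩ := R2 (a + b - (PX x + P2 y).val) x y hxy.1 (by omega)
    obtain ⟨x', h3, h4⟩ := L2 x ((f2 ^ (a + b - (PX x + P2 y).val)) y) (by omega)
    exact ⟨x', _, h3, (sameCycle_of_pow h1).trans h4⟩
  have D : ∀ (x : X) (y : Y), ∃ x' y', PX x' + P1 y' = 0 ∧ H.SameCycle (x, y) (x', y') := by
    classical
    intro x y
    have hex : ∃ t : ℕ, (PX x + P1 y + (t : ZMod N)).val < a ∨
        (a ≤ (PX x + P2 y + (t : ZMod N)).val ∧ (PX x + P2 y + (t : ZMod N)).val < a + b) := by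
      refine ⟨N - (PX x + P1 y).val, Or.inl ?_⟩
      have h3 := ZMod.val_lt (PX x + P1 y)
      rw [val_add_nat]
      have e1 : (PX x + P1 y).val + (N - (PX x + P1 y).val) = N := by omega
      rw [e1, Nat.mod_self]
      omega
    have h1 := Nat.find_spec hex
    have h2 := fun i (hi : i < Nat.find hex) => Nat.find_min hex hi
    set t := Nat.find hex with ht
    have h3 := R3 t x y (fun i hi => not_or.1 (h2 i hi))
    have e1 : PX ((h ^ t) x) + P1 y = PX x + P1 y + (t : ZMod N) := by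
      rw [pos_pow hPX]; ring
    have e2 : PX ((h ^ t) x) + P2 y = PX x + P2 y + (t : ZMod N) := by
      rw [pos_pow hPX]; ring
    rw [← e1, ← e2] at h1
    obtain ⟨x', y', h4, h5⟩ : ∃ x' y', PX x' + P1 y' = 0 ∧ H.SameCycle ((h ^ t) x, y) (x', y') := by
      rcases h1 with h1 | h1
      · exact D1 _ _ h1
      · exact D3 _ _ h1
    exact ⟨x', y', h4, (sameCycle_of_pow h3).trans h5⟩
  -- iterating
  have Cn : ∀ (n : ℕ) (x : X) (y : Y), PX x + P1 y = 0 →
      ∃ x', PX x' + P1 (((f2 ^ b * f1 ^ a) ^ n) y) = 0 ∧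
        H.SameCycle (x, y) (x', ((f2 ^ b * f1 ^ a) ^ n) y) := by
    intro n
    induction n with
    | zero => intro x y hxy; exact ⟨x, hxy, Equiv.Perm.SameCycle.refl _ _⟩
    | succ n ih =>
      intro x y hxy
      obtain ⟨x1, h1, h2⟩ := ih x y hxy
      obtain ⟨x2, h3, h4⟩ := C x1 _ h1
      rw [pow_succ', Equiv.Perm.mul_apply]
      exact ⟨x2, h3, h2.trans h4⟩
  apply tr_of_sameCycle
  rintro ⟨x1, y1⟩ ⟨x2, y2⟩
  obtain ⟨x1', y1', h1, h2⟩ := D x1 y1
  obtain ⟨x2', y2', h3, h4⟩ := D x2 y2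
  obtain ⟨n, hn⟩ := hφ y1' y2'
  obtain ⟨x3, h5, h6⟩ := Cn n x1' y1' h1
  rw [hn] at h5 h6
  have h7 : x3 = x2' := by
    apply hinj
    linear_combination h5 - h3
  rw [h7] at h6
  exact (h2.trans h6).trans h4.symm

end Pool.Agent.TH486.LAC
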