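import Mathlib

set_option autoImplicit false

/-!
The Rado-Horn theorem (Edmonds' matroid partition theorem for vector spaces), and an equitable
version.
-/

namespace Pool.Agent.TH486.LAC

open Finset Module

section horn

variable {K V : Type} [Field K] [AddCommGroup V] [Module K V] [FiniteDimensional K V]

theorem fr_le (W : Submodule K V) (Y : Finset V) :
    finrank K ↥(W ⊔ Submodule.span K (Y : Set V)) ≤ finrank K W + Y.card := by
  refine (Submodule.finrank_add_le_finrank_add_finrank _ _).trans ?_
  exact Nat.add_le_add_left (finrank_span_finset_le_card Y) _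

theorem indep_mono {W W' : Submodule K V} (hWW' : W ≤ W') (Y : Finset V)
    (h : finrank K ↥(W' ⊔ Submodule.span K (Y : Set V)) = finrank K W' + Y.card) :
    finrank K ↥(W ⊔ Submodule.span K (Y : Set V)) = finrank K W + Y.card := by
  refine le_antisymm (fr_le W Y) ?_
  have h1 := Submodule.finrank_sup_add_finrank_inf_eq W' (W ⊔ Submodule.span K (Y : Set V))
  have h2 : W' ⊔ (W ⊔ Submodule.span K (Y : Set V)) = W' ⊔ Submodule.span K (Y : Set V) := by
    rw [← sup_assoc, sup_eq_left.2 hWW']
  rw [h2, h] at h1
  have h3 : finrank K W ≤ finrank K ↥(W' ⊓ (W ⊔ Submodule.span K (Y : Set V))) :=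
    Submodule.finrank_mono (le_inf hWW' le_sup_left)
  omega

theorem fr_insert {W : Submodule K V} {x : V} (hx : x ∉ W) :
    finrank K ↥(W ⊔ Submodule.span K {x}) = finrank K W + 1 := by
  apply le_antisymm
  · have := fr_le W {x}
    rw [coe_singleton, card_singleton] at this
    exact this
  · apply Submodule.finrank_lt_finrank_of_lt
    refine lt_of_le_of_ne le_sup_left fun h => hx ?_
    rw [h]
    exact Submodule.mem_sup_right (Submodule.mem_span_singleton_self x)

theorem rado_horn {κ : Type} [Fintype κ] [DecidableEq κ] [Nonempty κ] [DecidableEq V] (n : ℕ) :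
    ∀ (T : Finset V) (U : κ → Submodule K V), T.card = n →
      (∀ A ⊆ T, A.card + ∑ j, finrank K (U j) ≤
        ∑ j, finrank K ↥(U j ⊔ Submodule.span K (A : Set V))) →
      ∃ c : V → κ, ∀ j, finrank K ↥(U j ⊔
        Submodule.span K ((T.filter (fun x => c x = j) : Finset V) : Set V)) =
        finrank K (U j) + (T.filter (fun x => c x = j)).card := by
  induction n using Nat.strong_induction_on with
  | _ n ih =>
    intro T U hn hT
    by_cases hE : T = ∅
    · subst hE
      obtain ⟨j0⟩ := ‹Nonempty κ›
      refine ⟨fun _ => j0, fun j => ?_⟩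
      rw [filter_empty, coe_empty, Submodule.span_empty, sup_bot_eq, card_empty, add_zero]
    by_cases hcase : ∃ A ⊆ T, A ≠ ∅ ∧ A ≠ T ∧ A.card + ∑ j, finrank K (U j) =
        ∑ j, finrank K ↥(U j ⊔ Submodule.span K (A : Set V))
    · obtain ⟨A, hAT, hA0, hAT', htight⟩ := hcase
      have hAc : A.card < n := by
        rw [← hn]; exact card_lt_card (lt_of_le_of_ne hAT hAT')
      have hApos : 0 < A.card := card_pos.2 (nonempty_iff_ne_empty.2 hA0)
      obtain ⟨c1, hc1⟩ := ih A.card hAc A U rfl (fun B hB => hT B (hB.trans hAT))
      have hTA : (T \ A).card < n := by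
        rw [card_sdiff_of_subset hAT]; omega
      obtain ⟨c2, hc2⟩ := ih _ hTA (T \ A) (fun j => U j ⊔ Submodule.span K (A : Set V)) rfl (by
        intro B hB
        have hdis : Disjoint A B := by
          rw [Finset.disjoint_left]
          intro y hy hy'
          exact (mem_sdiff.1 (hB hy')).2 hy
        have h1 := hT (A ∪ B) (union_subset hAT (hB.trans sdiff_subset))
        rw [card_union_of_disjoint hdis] at h1
        have h2 : ∀ j, U j ⊔ Submodule.span K ((A ∪ B : Finset V) : Set V) =
            U j ⊔ Submodule.span K (A : Set V) ⊔ Submodule.span K (B : Set V) := by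
          intro j
          rw [coe_union, Submodule.span_union, sup_assoc]
        have h3 : ∑ j, finrank K ↥(U j ⊔ Submodule.span K ((A ∪ B : Finset V) : Set V)) =
            ∑ j, finrank K ↥(U j ⊔ Submodule.span K (A : Set V) ⊔
              Submodule.span K (B : Set V)) := sum_congr rfl fun j _ => by rw [h2 j]
        rw [h3] at h1
        omega)
      refine ⟨fun x => if x ∈ A then c1 x else c2 x, fun j => ?_⟩
      have hsplit : T.filter (fun x => (if x ∈ A then c1 x else c2 x) = j) =
          A.filter (fun x => c1 x = j) ∪ (T \ A).filter (fun x => c2 x = j) := by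
        ext x
        simp only [mem_filter, mem_union, mem_sdiff]
        by_cases hx : x ∈ A
        · simp [hx, hAT hx]
        · simp [hx]
      have hdis : Disjoint (A.filter (fun x => c1 x = j)) ((T \ A).filter (fun x => c2 x = j)) := by
        rw [Finset.disjoint_left]
        intro y hy hy'
        exact (mem_sdiff.1 (mem_filter.1 hy').1).2 (mem_filter.1 hy).1
      rw [hsplit, card_union_of_disjoint hdis, coe_union, Submodule.span_union, ← sup_assoc]
      have h3 := indep_mono (W := U j ⊔ Submodule.span K
        ((A.filter (fun x => c1 x = j) : Finset V) : Set V))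
        (W' := U j ⊔ Submodule.span K (A : Set V))
        (sup_le_sup_left (Submodule.span_mono (by
          exact_mod_cast filter_subset _ A)) _) _ (hc2 j)
      rw [h3, hc1 j, add_assoc]
    · push Not at hcase
      obtain ⟨x, hx⟩ := nonempty_iff_ne_empty.2 hE
      have h1 := hT {x} (singleton_subset_iff.2 hx)
      obtain ⟨j, hj⟩ : ∃ j, x ∉ U j := by
        by_contra hcon
        push Not at hcon
        have h2 : ∀ j, U j ⊔ Submodule.span K (({x} : Finset V) : Set V) = U j := by
          intro j
          rw [coe_singleton, sup_eq_left, Submodule.span_singleton_le_iff_mem]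
          exact hcon j
        have h3 : ∑ j, finrank K ↥(U j ⊔ Submodule.span K (({x} : Finset V) : Set V)) =
            ∑ j, finrank K (U j) := sum_congr rfl fun j _ => by rw [h2 j]
        rw [h3, card_singleton] at h1
        omega
      let U' : κ → Submodule K V := Function.update U j (U j ⊔ Submodule.span K {x})
      have hU'j : U' j = U j ⊔ Submodule.span K {x} := Function.update_self _ _ _
      have hU'i : ∀ i, i ≠ j → U' i = U i := fun i hi => Function.update_of_ne hi _ _
      have hle : ∀ i, U i ≤ U' i := by
        intro i
        by_cases hi : i = j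
        · subst hi; rw [hU'j]; exact le_sup_left
        · rw [hU'i i hi]
      have hsum : ∑ i, finrank K (U' i) = ∑ i, finrank K (U i) + 1 := by
        rw [← add_sum_erase univ _ (mem_univ j), ← add_sum_erase univ (fun i => finrank K (U i))
          (mem_univ j), hU'j, fr_insert hj]
        have : ∑ i ∈ univ.erase j, finrank K (U' i) = ∑ i ∈ univ.erase j, finrank K (U i) := by
          refine sum_congr rfl fun i hi => ?_
          rw [hU'i i (ne_of_mem_erase hi)]
        rw [this]
        ring
      have hcard : (T.erase x).card < n := by
        rw [← hn]; exact card_erase_lt_of_mem hx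
      obtain ⟨c', hc'⟩ := ih _ hcard (T.erase x) U' rfl (by
        intro A hA
        by_cases hA0 : A = ∅
        · subst hA0
          rw [card_empty, zero_add]
          exact sum_le_sum fun i _ => Submodule.finrank_mono le_sup_left
        · have hAT : A ⊆ T := hA.trans (erase_subset _ _)
          have hAne : A ≠ T := by
            intro h
            subst h
            exact absurd (hA hx) (notMem_erase x _)
          have h2 := hcase A hAT (nonempty_iff_ne_empty.2 hA0) hAne
          have h3 := hT A hAT
          have h4 : ∑ i, finrank K ↥(U i ⊔ Submodule.span K (A : Set V)) ≤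
              ∑ i, finrank K ↥(U' i ⊔ Submodule.span K (A : Set V)) :=
            sum_le_sum fun i _ => Submodule.finrank_mono (sup_le_sup_right (hle i) _)
          rw [hsum]
          omega)
      refine ⟨fun y => if y = x then j else c' y, fun i => ?_⟩
      by_cases hi : i = j
      · subst hi
        have hsplit : T.filter (fun y => (if y = x then i else c' y) = i) =
            insert x ((T.erase x).filter (fun y => c' y = i)) := by
          ext y
          simp only [mem_filter, mem_insert, mem_erase]
          by_cases hy : y = x
          · subst hy; simp [hx]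
          · simp [hy]
        rw [hsplit, card_insert_of_notMem (by simp), coe_insert, Submodule.span_insert,
          ← sup_assoc, ← hU'j, hc' i, hU'j, fr_insert hj]
        ring
      · have hsplit : T.filter (fun y => (if y = x then j else c' y) = i) =
            (T.erase x).filter (fun y => c' y = i) := by
          ext y
          simp only [mem_filter, mem_erase]
          by_cases hy : y = x
          · subst hy; simp [Ne.symm hi]
          · simp [hy]
        rw [hsplit]
        have := hc' i
        rwa [hU'i i hi] at this

/-- The span of `Y` has dimension `|Y|`. -/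
def Ind (K : Type) {V : Type} [Field K] [AddCommGroup V] [Module K V] (Y : Finset V) : Prop :=
  finrank K ↥(Submodule.span K (Y : Set V)) = Y.card

theorem Ind.insert [DecidableEq V] {Y : Finset V} (h : Ind K Y) {x : V}
    (hx : x ∉ Submodule.span K (Y : Set V)) : Ind K (insert x Y) := by
  unfold Ind at *
  have hxY : x ∉ Y := fun h' => hx (Submodule.subset_span h')
  rw [card_insert_of_notMem hxY, coe_insert, Submodule.span_insert, sup_comm, fr_insert hx, h]

theorem Ind.erase [DecidableEq V] {Y : Finset V} (h : Ind K Y) {x : V} (hx : x ∈ Y) :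
    Ind K (Y.erase x) := by
  unfold Ind at *
  have h1 := fr_le (K := K) (Submodule.span K ((Y.erase x : Finset V) : Set V)) {x}
  rw [coe_singleton, card_singleton, sup_comm, ← Submodule.span_insert, ← coe_insert,
    insert_erase hx, h] at h1
  have h2 := finrank_span_finset_le_card (R := K) (Y.erase x)
  have h3 := card_erase_add_one hx
  unfold Set.finrank at h2
  omega

theorem equitable [DecidableEq V] {T : Finset V} {l : ℕ} (hl : 0 < l)
    (h : ∀ A ⊆ T, A.card ≤ l * finrank K ↥(Submodule.span K (A : Set V))) :
    ∃ c : V → Fin l, (∀ j, Ind K (T.filter (fun x => c x = j))) ∧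
      ∀ i j, (T.filter (fun x => c x = i)).card ≤ (T.filter (fun x => c x = j)).card + 1 := by
  classical
  have : Nonempty (Fin l) := ⟨⟨0, hl⟩⟩
  have hex : ∃ n, ∃ c : V → Fin l, (∀ j, Ind K (T.filter (fun x => c x = j))) ∧
      ∑ j, (T.filter (fun x => c x = j)).card ^ 2 = n := by
    obtain ⟨c, hc⟩ := rado_horn (κ := Fin l) T.card T (fun _ => (⊥ : Submodule K V)) rfl (by
      intro A hA
      have h1 : ∑ j : Fin l, finrank K ↥((⊥ : Submodule K V) ⊔ Submodule.span K (A : Set V)) =
          l * finrank K ↥(Submodule.span K (A : Set V)) := by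
        rw [bot_sup_eq, sum_const, card_univ, Fintype.card_fin, smul_eq_mul]
      rw [h1]
      simpa using h A hA)
    refine ⟨_, c, fun j => ?_, rfl⟩
    have h1 := hc j
    rw [bot_sup_eq, finrank_bot, zero_add] at h1
    exact h1
  obtain ⟨c, hc, hmin⟩ := Nat.find_spec hex
  refine ⟨c, hc, fun i j => ?_⟩
  by_contra hcon
  push Not at hcon
  have hij : i ≠ j := by
    rintro rfl
    omega
  -- an element to move
  obtain ⟨x, hx, hxj⟩ : ∃ x ∈ T.filter (fun x => c x = i),
      x ∉ Submodule.span K ((T.filter (fun x => c x = j) : Finset V) : Set V) := by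
    by_contra hcon2
    push Not at hcon2
    have h1 : Submodule.span K ((T.filter (fun x => c x = i) : Finset V) : Set V) ≤
        Submodule.span K ((T.filter (fun x => c x = j) : Finset V) : Set V) :=
      Submodule.span_le.2 fun x hx => hcon2 x hx
    have h2 := Submodule.finrank_mono h1
    rw [hc i, hc j] at h2
    omega
  obtain ⟨hxT, hxi⟩ := mem_filter.1 hx
  let c' : V → Fin l := fun y => if y = x then j else c y
  have hj' : T.filter (fun y => c' y = j) = insert x (T.filter (fun y => c y = j)) := by
    ext y
    simp only [c', mem_filter, mem_insert]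
    by_cases hy : y = x
    · subst hy; simp [hxT]
    · simp [hy]
  have hi' : T.filter (fun y => c' y = i) = (T.filter (fun y => c y = i)).erase x := by
    ext y
    simp only [c', mem_filter, mem_erase]
    by_cases hy : y = x
    · subst hy; simp [Ne.symm hij]
    · simp [hy]
  have hk' : ∀ k, k ≠ i → k ≠ j → T.filter (fun y => c' y = k) = T.filter (fun y => c y = k) := by
    intro k hki hkj
    ext y
    simp only [c', mem_filter]
    by_cases hy : y = x
    · subst hy; simp [hxi, Ne.symm hkj, Ne.symm hki]
    · simp [hy]
  have hxj' : x ∉ T.filter (fun y => c y = j) := fun h' => hxj (Submodule.subset_span h')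
  have hind : ∀ k, Ind K (T.filter (fun y => c' y = k)) := by
    intro k
    by_cases hki : k = i
    · subst hki; rw [hi']; exact (hc k).erase hx
    · by_cases hkj : k = j
      · subst hkj; rw [hj']; exact (hc k).insert hxj
      · rw [hk' k hki hkj]; exact hc k
  have hlt : ∑ k, (T.filter (fun y => c' y = k)).card ^ 2 <
      ∑ k, (T.filter (fun y => c y = k)).card ^ 2 := by
    have hjm : j ∈ univ.erase i := mem_erase.2 ⟨Ne.symm hij, mem_univ _⟩
    rw [← add_sum_erase univ _ (mem_univ i), ← add_sum_erase (univ.erase i) _ hjm,
      ← add_sum_erase univ (fun k => (T.filter (fun y => c y = k)).card ^ 2) (mem_univ i),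
      ← add_sum_erase (univ.erase i) (fun k => (T.filter (fun y => c y = k)).card ^ 2) hjm]
    have hrest : ∑ k ∈ (univ.erase i).erase j, (T.filter (fun y => c' y = k)).card ^ 2 =
        ∑ k ∈ (univ.erase i).erase j, (T.filter (fun y => c y = k)).card ^ 2 := by
      refine sum_congr rfl fun k hk => ?_
      obtain ⟨h1, h2⟩ := mem_erase.1 hk
      rw [hk' k (ne_of_mem_erase h2) h1]
    rw [hrest, hi', hj', card_insert_of_notMem hxj', ← card_erase_add_one hx]
    rw [← card_erase_add_one hx] at hcon
    nlinarith [hcon]
  exact Nat.find_min hex (hmin ▸ hlt) ⟨c', hind, rfl⟩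

end horn

end Pool.Agent.TH486.LAC
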