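import Pool.Agent.TH486.LAC.Tower
import Pool.Agent.TH486.LAC.Horn
import Pool.Agent.W111.LAR.Crit

set_option autoImplicit false

/-!
Two-factors with long cycles from linearly independent generators.
-/

namespace Pool.Agent.TH486.LAC

open Finset Module SimpleGraph H931R3.LA Pool.Agent.W111.LAR

/-- The graph of a function. -/
def fgr {V : Type} (f : V → V) : SimpleGraph V where
  Adj v w := v ≠ w ∧ (w = f v ∨ v = f w)
  symm.symm _ _ h := ⟨h.1.symm, h.2.symm⟩
  loopless.irrefl _ h := h.1 rfl

theorem fgr_deg {V : Type} [Finite V] {f : V → V} (hf : Function.Injective f) (v : V) :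
    ((fgr f).neighborSet v).ncard ≤ 2 := by
  obtain ⟨w0, hw0⟩ := (Finite.surjective_of_injective hf) v
  have hsub : (fgr f).neighborSet v ⊆ {f v, w0} := by
    rintro w ⟨_, h | h⟩
    · exact Or.inl h
    · exact Or.inr (hf (h.symm.trans hw0.symm))
  refine le_trans (Set.ncard_le_ncard hsub (Set.toFinite _)) ?_
  exact Set.ncard_insert_le _ _ |>.trans (by simp)

theorem fgr_reach {V : Type} (f : V → V) (v : V) (n : ℕ) : (fgr f).Reachable v (f^[n] v) := by
  induction n with
  | zero => exact Reachable.refl v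
  | succ n ih =>
    refine ih.trans ?_
    rw [Function.iterate_succ_apply']
    by_cases h : f^[n] v = f (f^[n] v)
    · rw [← h]
    · exact SimpleGraph.Adj.reachable ⟨h, Or.inl rfl⟩

variable {p : ℕ} [Fact p.Prime]

theorem class_factors {V : Type} [AddCommGroup V] [Module (ZMod p) V] [Finite V] (I : Finset V)
    (hI : Ind (ZMod p) I) (hc : 2 * I.card < p + 2) :
    ∃ P : V → SimpleGraph V,
      (∀ i ∈ I, ∀ v, ((P i).neighborSet v).ncard ≤ 2 ∧ p ^ I.card ≤ csize (P i) v) ∧
      (∀ i ∈ I, ∀ v w, (P i).Adj v w → w - v ∈ I ∨ v - w ∈ I) ∧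
      (∀ v, ∀ a ∈ I, ∃ i ∈ I, v ≠ v + a → (P i).Adj v (v + a)) := by
  classical
  obtain ⟨ι, _, _, X, u, pos, h, g, L, hcard, hg⟩ := exists_good (p := p) I.card hc
  have hcard' : Fintype.card ι = Fintype.card I := by rw [hcard, Fintype.card_coe]
  let e : ι ≃ I := Fintype.equivOfCardEq hcard'
  let a : ι → V := fun i => (e i : V)
  have haI : ∀ i, a i ∈ I := fun i => (e i).2
  have hrange : Set.range a = (I : Set V) := by
    ext v
    constructor
    · rintro ⟨i, rfl⟩
      exact haI i
    · intro hv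
      exact ⟨e.symm ⟨v, hv⟩, by simp [a]⟩
  have hli : LinearIndependent (ZMod p) a := by
    rw [linearIndependent_iff_card_eq_finrank_span, hrange, hcard]
    exact hI.symm
  set E : Submodule (ZMod p) V := Submodule.span (ZMod p) (I : Set V) with hE
  let rep : V → V := fun v => (Submodule.Quotient.mk (p := E) v).out
  have hrep : ∀ v, v - rep v ∈ E := by
    intro v
    rw [← Submodule.Quotient.eq]
    exact (Quotient.out_eq' (Submodule.Quotient.mk (p := E) v)).symm
  have hrepc : ∀ v w, v - w ∈ E → rep v = rep w := by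
    intro v w hvw
    have : (Submodule.Quotient.mk (p := E) v) = Submodule.Quotient.mk w :=
      (Submodule.Quotient.eq E).2 hvw
    show (Submodule.Quotient.mk (p := E) v).out = (Submodule.Quotient.mk (p := E) w).out
    rw [this]
  let Ψ : X → V := fun x => ∑ i, pos x i • a i
  have hΨE : ∀ x, Ψ x ∈ E := by
    intro x
    refine Submodule.sum_mem _ fun i _ => Submodule.smul_mem _ _ ?_
    exact Submodule.subset_span (haI i)
  have hΨinj : Function.Injective Ψ := by
    intro x y hxy
    apply hg.bij.1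
    funext i
    have h1 : ∑ i, (pos x i - pos y i) • a i = 0 := by
      simp only [sub_smul, sum_sub_distrib]
      exact sub_eq_zero.2 hxy
    have h2 := Fintype.linearIndependent_iff.1 hli _ h1 i
    exact sub_eq_zero.1 h2
  have hΨsurj : ∀ w ∈ E, ∃ x, Ψ x = w := by
    intro w hw
    rw [hE, ← hrange, Submodule.mem_span_range_iff_exists_fun] at hw
    obtain ⟨f, hf⟩ := hw
    obtain ⟨x, hx⟩ := hg.bij.2 f
    refine ⟨x, ?_⟩
    show ∑ i, pos x i • a i = w
    rw [hx, hf]
  have hΨstep : ∀ i x, Ψ (h i x) = Ψ x + a (g i x) := by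
    intro i x
    show ∑ j, pos (h i x) j • a j = ∑ j, pos x j • a j + a (g i x)
    rw [hg.step]
    simp only [Pi.add_apply, add_smul, sum_add_distrib]
    congr 1
    rw [sum_eq_single (g i x)]
    · simp
    · intro b _ hb
      rw [Pi.single_eq_of_ne hb, zero_smul]
    · intro hn; exact absurd (mem_univ _) hn
  choose xx hxx using fun v => hΨsurj _ (hrep v)
  have hxxv : ∀ v, v = rep v + Ψ (xx v) := by
    intro v
    rw [hxx]; abel
  have hxxu : ∀ v x, v = rep v + Ψ x → x = xx v := by
    intro v x hv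
    apply hΨinj
    rw [hxx]
    exact eq_sub_of_add_eq' hv.symm
  let f : ι → V → V := fun i v => v + a (g i (xx v))
  have hfrep : ∀ i v, rep (f i v) = rep v := by
    intro i v
    apply hrepc
    show v + a (g i (xx v)) - v ∈ E
    rw [add_sub_cancel_left]
    exact Submodule.subset_span (haI _)
  have hfxx : ∀ i v, xx (f i v) = h i (xx v) := by
    intro i v
    symm
    apply hxxu
    rw [hfrep, hΨstep, ← add_assoc, ← hxxv]
  have hfinj : ∀ i, Function.Injective (f i) := by
    intro i v w hvw
    have h1 : rep v = rep w := by rw [← hfrep i v, hvw, hfrep]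
    have h2 : xx v = xx w := by
      apply (h i).injective
      rw [← hfxx, ← hfxx, hvw]
    rw [hxxv v, hxxv w, h1, h2]
  have hiter : ∀ i v n, rep ((f i)^[n] v) = rep v ∧ xx ((f i)^[n] v) = ((h i) ^ n) (xx v) := by
    intro i v n
    induction n with
    | zero => exact ⟨rfl, rfl⟩
    | succ n ih =>
      rw [Function.iterate_succ_apply', hfrep, hfxx, ih.1, ih.2, pow_succ', Equiv.Perm.mul_apply]
      exact ⟨rfl, rfl⟩
  have htr : ∀ i, Tr (h i) := fun i => hg.tr _ _ (Word.gen h i) (fun j => hg.Lne j i)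
  have hreach : ∀ i v w, w - v ∈ E → (fgr (f i)).Reachable v w := by
    intro i v w hvw
    obtain ⟨n, hn⟩ := htr i (xx v) (xx w)
    have h1 : (f i)^[n] v = w := by
      rw [hxxv ((f i)^[n] v), hxxv w, (hiter i v n).1, (hiter i v n).2, hn, hrepc w v hvw]
    rw [← h1]
    exact fgr_reach _ _ _
  have hsize : ∀ i v, p ^ I.card ≤ csize (fgr (f i)) v := by
    intro i v
    have h1 : (fun x => v + x) '' (E : Set V) ⊆ {w | (fgr (f i)).Reachable v w} := by
      rintro _ ⟨x, hx, rfl⟩
      apply hreach
      rw [add_sub_cancel_left]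
      exact hx
    have h2 := Set.ncard_le_ncard h1 (Set.toFinite _)
    rw [Set.ncard_image_of_injective _ (add_right_injective v)] at h2
    have h3 : (E : Set V).ncard = p ^ I.card := by
      have h4 : Nat.card E = Nat.card (ZMod p) ^ finrank (ZMod p) E :=
        Module.natCard_eq_pow_finrank
      rw [Nat.card_zmod] at h4
      rw [← hI]
      exact h4
    rw [h3] at h2
    exact h2
  let P : V → SimpleGraph V := fun v => if hv : v ∈ I then fgr (f (e.symm ⟨v, hv⟩)) else ⊥
  have hP : ∀ i (hi : i ∈ I), P i = fgr (f (e.symm ⟨i, hi⟩)) := fun i hi => dif_pos hi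
  refine ⟨P, ?_, ?_, ?_⟩
  · intro i hi v
    rw [hP i hi]
    exact ⟨fgr_deg (hfinj _) v, hsize _ v⟩
  · intro i hi v w hvw
    rw [hP i hi] at hvw
    rcases hvw.2 with h1 | h1
    · left
      rw [h1]
      show v + a _ - v ∈ I
      rw [add_sub_cancel_left]
      exact haI _
    · right
      rw [h1]
      show w + a _ - w ∈ I
      rw [add_sub_cancel_left]
      exact haI _
  · intro v b hb
    obtain ⟨i, hi⟩ := hg.surj (xx v) (e.symm ⟨b, hb⟩)
    refine ⟨a i, haI i, fun hne => ?_⟩
    rw [hP _ (haI i)]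
    have h1 : e.symm ⟨a i, haI i⟩ = i := by simp [a]
    rw [h1]
    refine ⟨hne, Or.inl ?_⟩
    show v + b = v + a (g i (xx v))
    rw [hi]
    simp [a]

end Pool.Agent.TH486.LAC
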