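import Pool.Agent.TH486.LAC.Special
import Pool.Agent.TH486.LAC.Assemble

set_option autoImplicit false

/-!
Assembly of classes.
-/

namespace Pool.Agent.TH486.LAC

open Finset Module SimpleGraph H931R3.LA Pool.Agent.W111.LAR

variable {p : ℕ} [Fact p.Prime]

/-- The graph with connection set `R` is the union of `N` graphs of maximum degree two all whose
components have at least `p ^ δ` vertices. -/
def HC (p : ℕ) {V : Type} [AddCommGroup V] (R : Finset V) (N δ : ℕ) : Prop :=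
  ∃ P : Fin N → SimpleGraph V,
    (∀ i v, ((P i).neighborSet v).ncard ≤ 2 ∧ p ^ δ ≤ csize (P i) v) ∧
    ∀ v w, (∃ i, (P i).Adj v w) ↔ v ≠ w ∧ w - v ∈ R

theorem hc_of_ham {V : Type} [AddCommGroup V] {I : Finset V} {δ : ℕ} (hI : HamClass p I δ)
    {R : Finset V} (hR : ∀ x, x ∈ R ↔ x ∈ I ∨ -x ∈ I) : HC p R I.card δ := by
  classical
  obtain ⟨P, h1, h2, h3⟩ := hI
  let e : Fin I.card ≃ I := I.equivFin.symm
  refine ⟨fun i => P (e i), fun i v => h1 _ (e i).2 v, ?_⟩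
  intro v w
  rw [hR, neg_sub]
  constructor
  · rintro ⟨i, hi⟩
    exact ⟨hi.ne, h2 _ (e i).2 v w hi⟩
  · rintro ⟨hne, h | h⟩
    · obtain ⟨i, hi, hadj⟩ := h3 v (w - v) h
      rw [add_sub_cancel] at hadj
      refine ⟨e.symm ⟨i, hi⟩, ?_⟩
      simp only [Equiv.apply_symm_apply]
      exact hadj hne
    · obtain ⟨i, hi, hadj⟩ := h3 w (v - w) h
      rw [add_sub_cancel] at hadj
      refine ⟨e.symm ⟨i, hi⟩, ?_⟩
      simp only [Equiv.apply_symm_apply]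
      exact (hadj hne.symm).symm

theorem ld_HC {V κ : Type} [AddCommGroup V] [Finite V] [Fintype κ] (R : κ → Finset V)
    (N δ : κ → ℕ) (hH : ∀ k, HC p (R k) (N k) (δ k))
    (hload : ∑ k, (N k : ℝ) * (2 / (p : ℝ) ^ (δ k)) ≤ 1)
    (G : SimpleGraph V) (hG : ∀ v w, G.Adj v w ↔ v ≠ w ∧ ∃ k, w - v ∈ R k) :
    LD G (∑ k, N k) := by
  classical
  choose P hP1 hP2 using hH
  have hGT : G = ⨆ x : (Σ k, Fin (N k)), P x.1 x.2 := by
    ext v w
    rw [iSup_adj, hG]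
    constructor
    · rintro ⟨hne, k, hk⟩
      obtain ⟨i, hi⟩ := (hP2 k v w).2 ⟨hne, hk⟩
      exact ⟨⟨k, i⟩, hi⟩
    · rintro ⟨⟨k, i⟩, hi⟩
      obtain ⟨hne, hk⟩ := (hP2 k v w).1 ⟨i, hi⟩
      exact ⟨hne, k, hk⟩
  refine ⟨(Σ k, Fin (N k)), inferInstance, fun x => P x.1 x.2, by rw [Fintype.card_sigma]; simp,
    fun x v => (hP1 x.1 x.2 v).1, ?_, hGT⟩
  intro v
  refine le_trans ?_ hload
  have h3 : ∑ k, (N k : ℝ) * (2 / (p : ℝ) ^ (δ k)) =
      ∑ x : (Σ k, Fin (N k)), 2 / (p : ℝ) ^ (δ x.1) := by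
    rw [Fintype.sum_sigma]
    refine sum_congr rfl fun k _ => ?_
    show _ = ∑ _y : Fin (N k), 2 / (p : ℝ) ^ (δ k)
    rw [sum_const, card_univ, Fintype.card_fin, nsmul_eq_mul]
  rw [h3]
  refine sum_le_sum fun x _ => ?_
  have hp : (0 : ℝ) < p := by
    exact_mod_cast (Fact.out : p.Prime).pos
  have hpos : (0 : ℝ) < (p : ℝ) ^ (δ x.1) := by positivity
  have h4 : (p : ℝ) ^ (δ x.1) ≤ csize (P x.1 x.2) v := by
    exact_mod_cast (hP1 x.1 x.2 v).2
  exact div_le_div_of_nonneg_left (by norm_num) hpos h4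

end Pool.Agent.TH486.LAC
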