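import Pool.Agent.TH486.LAC.NearFull
import Pool.Agent.W111.LAR.Top

set_option autoImplicit false

/-!
All Cayley graphs of elementary abelian groups.
-/

namespace Pool.Agent.TH486.LAC

open Finset Module SimpleGraph H931R3.LA Pool.Agent.W111.LAR

variable {p : ℕ} [Fact p.Prime]

theorem ld_all (hp : 5 ≤ p) {V : Type} [AddCommGroup V] [Module (ZMod p) V] [Finite V]
    (S : Finset V) (hS : S.Nonempty) (hS0 : 0 ∉ S)
    (hSn : ∀ x ∈ S, -x ∈ S) (G : SimpleGraph V) (hG : ∀ v w, G.Adj v w ↔ w - v ∈ S) :
    LD G (S.card / 2) := by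
  classical
  have hG' : ∀ v w, G.Adj v w ↔ v ≠ w ∧ w - v ∈ S := by
    intro v w
    rw [hG]
    refine ⟨fun h => ⟨?_, h⟩, fun h => h.2⟩
    rintro rfl
    rw [sub_self] at h
    exact hS0 h
  by_cases hNF : ∃ F : Submodule (ZMod p) V, 2 ≤ finrank (ZMod p) F ∧
      p ^ finrank (ZMod p) F < (S.filter (fun x => x ∈ F)).card +
        2 * (finrank (ZMod p) F - 1) ^ 2 * (p - 1) ∧
      (S.filter (fun x => x ∉ F)).card ≤ 2 * finrank (ZMod p) F
  · obtain ⟨F, h1, h2, h3⟩ := hNF
    exact near_full hp S hS0 hSn F h1 h2 h3 G hG'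
  · push Not at hNF
    obtain ⟨T, hTS, hT1, hT2, hT3, hT4⟩ := half_system (p := p) (by omega) S hS0 hSn
    have hTne : T.Nonempty := by
      rw [← card_pos]
      have := hS.card_pos
      omega
    have h1 := main_notNF (p := p) hp T hTne hT1 G (by
      intro v w
      rw [hG', hT2, neg_sub]) (by
      intro F hF1 hF2
      by_contra hcon
      push Not at hcon
      have h2 := hT4 F
      have h3 := hNF F hF1 (by rw [h2]; exact hcon)
      have h4 : (S.filter (fun x => x ∈ F)).card + (S.filter (fun x => x ∉ F)).card = S.card :=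
        card_filter_add_card_filter_not (fun x => x ∈ F)
      have h5 : (T.filter (fun x => x ∈ F)).card + (T.filter (fun x => x ∉ F)).card = T.card :=
        card_filter_add_card_filter_not (fun x => x ∈ F)
      omega)
    have h2 : S.card / 2 = T.card := by omega
    rwa [h2]

theorem cay_deg_add {V : Type} [AddCommGroup V] [Finite V] (S : Finset V) (G : SimpleGraph V)
    (hG : ∀ v w, G.Adj v w ↔ w - v ∈ S) (v : V) : (G.neighborSet v).ncard = S.card := by
  have : G.neighborSet v = (fun x => v + x) '' (S : Set V) := by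
    ext w
    constructor
    · intro hw
      exact ⟨w - v, (hG v w).1 hw, by simp⟩
    · rintro ⟨x, hx, rfl⟩
      show G.Adj v (v + x)
      rw [hG]
      simpa using hx
  rw [this, Set.ncard_image_of_injective _ (add_right_injective v), Set.ncard_coe_finset]

end Pool.Agent.TH486.LAC
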