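import Pool.Agent.TH486.LAC.Load
import Pool.Agent.TH486.LAC.Factor3

set_option autoImplicit false

/-!
Cayley graphs of elementary abelian groups: no subspace is nearly full.
-/

namespace Pool.Agent.TH486.LAC

open Finset Module SimpleGraph H931R3.LA Pool.Agent.W111.LAR

variable {p : ℕ} [Fact p.Prime]

open Classical in
/-- A half system of a subspace of dimension `d` has less than `p ^ d / 2` elements. -/
theorem half_card {V : Type} [AddCommGroup V] [Module (ZMod p) V] [Finite V] (T : Finset V)
    (hT : ∀ x ∈ T, -x ∉ T) (F : Submodule (ZMod p) V) :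
    2 * (T.filter (fun x => x ∈ F)).card + 1 ≤ p ^ finrank (ZMod p) F := by
  set T0 := T.filter (fun x => x ∈ F) with hT0
  have h0 : (0 : V) ∉ T := fun h => hT 0 h (by rwa [neg_zero])
  have hF : (F : Set V).ncard = p ^ finrank (ZMod p) F := by
    have h4 : Nat.card F = Nat.card (ZMod p) ^ finrank (ZMod p) F :=
      Module.natCard_eq_pow_finrank
    rw [Nat.card_zmod] at h4
    exact h4
  rw [← hF]
  have hdis : Disjoint T0 (T0.image (fun x => -x)) := by
    rw [Finset.disjoint_left]
    intro x hx hx'
    obtain ⟨y, hy, rfl⟩ := mem_image.1 hx'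
    exact hT y (mem_filter.1 hy).1 (mem_filter.1 hx).1
  have h0' : (0 : V) ∉ T0 ∪ T0.image (fun x => -x) := by
    rw [mem_union, mem_image]
    rintro (h | ⟨y, hy, hy'⟩)
    · exact h0 (mem_filter.1 h).1
    · rw [neg_eq_zero] at hy'
      subst hy'
      exact h0 (mem_filter.1 hy).1
  have hsub : ((insert 0 (T0 ∪ T0.image (fun x => -x)) : Finset V) : Set V) ⊆ (F : Set V) := by
    intro x hx
    rw [mem_coe, mem_insert, mem_union, mem_image] at hx
    rcases hx with h | h | ⟨y, hy, h⟩
    · rw [h]; exact F.zero_mem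
    · exact (mem_filter.1 h).2
    · rw [← h]; exact F.neg_mem (mem_filter.1 hy).2
  have h1 := Set.ncard_le_ncard hsub (Set.toFinite _)
  rw [Set.ncard_coe_finset, card_insert_of_notMem h0', card_union_of_disjoint hdis,
    card_image_of_injective _ neg_injective] at h1
  omega

open Classical in
theorem main_notNF {V : Type} [AddCommGroup V] [Module (ZMod p) V] [Finite V] (hp : 5 ≤ p)
    (T : Finset V) (hne : T.Nonempty)
    (hT : ∀ x ∈ T, -x ∉ T)
    (G : SimpleGraph V) (hG : ∀ v w, G.Adj v w ↔ v ≠ w ∧ (w - v ∈ T ∨ v - w ∈ T))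
    (hNF : ∀ F : Submodule (ZMod p) V, 2 ≤ finrank (ZMod p) F →
      (T.filter (fun x => x ∉ F)).card ≤ finrank (ZMod p) F →
      2 * (T.filter (fun x => x ∈ F)).card + 2 * (finrank (ZMod p) F - 1) ^ 2 * (p - 1) ≤
        p ^ finrank (ZMod p) F) :
    LD G T.card := by
  have h0 : (0 : V) ∉ T := fun h => hT 0 h (by rwa [neg_zero])
  -- the least number of classes
  have hex : ∃ l : ℕ, ∀ A ⊆ T, A.card ≤ l * finrank (ZMod p) ↥(Submodule.span (ZMod p) (A : Set V)) := by
    refine ⟨T.card, fun A hA => ?_⟩
    rcases A.eq_empty_or_nonempty with h | ⟨x, hx⟩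
    · subst h; simp
    · have h1 : 0 < finrank (ZMod p) ↥(Submodule.span (ZMod p) (A : Set V)) := by
        rw [Module.finrank_pos_iff_exists_ne_zero]
        refine ⟨⟨x, Submodule.subset_span hx⟩, ?_⟩
        intro h
        have : x = 0 := congrArg Subtype.val h
        exact h0 (this ▸ hA hx)
      calc A.card ≤ T.card := card_le_card hA
        _ ≤ T.card * _ := Nat.le_mul_of_pos_right _ h1
  set l := Nat.find hex with hldef
  have hl : ∀ A ⊆ T, A.card ≤ l * finrank (ZMod p) ↥(Submodule.span (ZMod p) (A : Set V)) :=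
    Nat.find_spec hex
  have hlpos : 0 < l := by
    rcases Nat.eq_zero_or_pos l with h | h
    · have := hl T subset_rfl
      rw [h, zero_mul] at this
      have := hne.card_pos
      omega
    · exact h
  have hmin := Nat.find_min hex (m := l - 1) (by omega)
  push Not at hmin
  obtain ⟨A, hAT, hA⟩ := hmin
  set F := Submodule.span (ZMod p) (A : Set V) with hF
  set d := finrank (ZMod p) F with hd
  have hdpos : 1 ≤ d := by
    rcases Nat.eq_zero_or_pos d with h | h
    · have h1 := hl A hAT
      rw [← hF, ← hd, h, mul_zero] at h1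
      rw [h, mul_zero] at hA
      omega
    · exact h
  have hAT0 : A ⊆ T.filter (fun x => x ∈ F) := fun x hx =>
    mem_filter.2 ⟨hAT hx, Submodule.subset_span hx⟩
  set t0 := (T.filter (fun x => x ∈ F)).card with ht0
  have h1 : (l - 1) * d + 1 ≤ t0 := by
    have := card_le_card hAT0
    omega
  obtain ⟨c, hc1, hc2⟩ := equitable hlpos hl
  refine ld_ind_classes hp T c hc1 ?_ G hG
  have hsum : ∑ j, (T.filter (fun x => c x = j)).card = T.card := by
    rw [← card_eq_sum_card_fiberwise (f := c) (t := univ) (fun x _ => mem_coe.2 (mem_univ _))]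
  have hsplit : t0 + (T.filter (fun x => x ∉ F)).card = T.card := by
    rw [ht0]; exact card_filter_add_card_filter_not (fun x => x ∈ F)
  refine load_le (p := p) (l := l) (d := d) (β := T.card) (t0 := t0) hp hlpos
    (fun j => (T.filter (fun x => c x = j)).card) hc2 hsum hdpos h1 (by omega)
    (half_card T hT F) ?_
  intro h2
  rcases Nat.lt_or_ge d 2 with h3 | h3
  · have h4 : d = 1 := by omega
    have h5 := half_card T hT F
    rw [← hd, h4] at h5
    rw [h4]
    omega
  · have h6 : l * d = (l - 1) * d + d := by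
      obtain ⟨l', hl'⟩ : ∃ l', l = l' + 1 := ⟨l - 1, by omega⟩
      rw [hl']
      simp only [Nat.add_sub_cancel]
      ring
    exact hNF F h3 (by omega)

end Pool.Agent.TH486.LAC
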