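import Pool.Agent.TH486.LAC.Sel
import Pool.Agent.TH486.LAC.MainA
import Pool.Agent.W111.LAR.Cay2

set_option autoImplicit false

/-!
The nearly full case.
-/

namespace Pool.Agent.TH486.LAC

open Finset Module SimpleGraph H931R3.LA Pool.Agent.W111.LAR

variable {p : ℕ} [Fact p.Prime]

theorem pow_ge {q k : ℕ} (hq : 4 ≤ q) (hk : 2 ≤ k) : 6 * k ^ 2 ≤ (q + 1) ^ k := by
  have h1 : 6 * k ^ 2 ≤ 5 ^ k := by
    induction k, hk using Nat.le_induction with
    | base => norm_num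
    | succ n hn ih =>
      have e1 : 6 * (n + 1) ^ 2 ≤ 6 * n ^ 2 * 5 := by nlinarith
      have e2 : 6 * n ^ 2 * 5 ≤ 5 ^ n * 5 := Nat.mul_le_mul_right _ ih
      rw [pow_succ 5 n]
      exact e1.trans e2
  exact h1.trans (Nat.pow_le_pow_left (by omega) _)

theorem numC {q k : ℕ} (hq : 4 ≤ q) (hk : 1 ≤ k) :
    2 * (k + 1) ^ 2 + 2 * k ^ 2 * q + 2 * (k ^ 2 + 2 * k) ≤ (q + 1) ^ (k + 1) + 1 := by
  rcases Nat.lt_or_ge k 2 with h | h
  · have : k = 1 := by omega
    subst this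
    have h5 : 4 * q ≤ q ^ 2 := by rw [pow_two]; exact Nat.mul_le_mul_right q hq
    have h6 : (q + 1) ^ (1 + 1) = q ^ 2 + 2 * q + 1 := by ring
    have h7 : 2 * (1 + 1) ^ 2 + 2 * 1 ^ 2 * q + 2 * (1 ^ 2 + 2 * 1) = 2 * q + 14 := by ring
    rw [h6, h7]
    omega
  · have h1 := pow_ge hq h
    have h2 : 6 * k ^ 2 * (q + 1) ≤ (q + 1) ^ k * (q + 1) := Nat.mul_le_mul_right _ h1
    rw [← pow_succ] at h2
    have h3 : 4 * 4 ≤ k ^ 2 * q := Nat.mul_le_mul (by nlinarith) hq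
    have h4 : 2 * (k + 1) ^ 2 + 2 * k ^ 2 * q + 2 * (k ^ 2 + 2 * k) ≤ 6 * k ^ 2 * (q + 1) + 1 := by
      nlinarith
    omega

theorem numD {q k : ℕ} (hq : 4 ≤ q) (hk : 1 ≤ k) :
    (k + 1) * (q + 1) ^ k + k * (2 * k ^ 2 * q + 2 * (k ^ 2 + 2 * k)) ≤
      k * (q + 1) ^ (k + 1) + k + (k + 1) := by
  rcases Nat.lt_or_ge k 2 with h | h
  · have : k = 1 := by omega
    subst this
    have h5 : 4 * q ≤ q ^ 2 := by rw [pow_two]; exact Nat.mul_le_mul_right q hq
    have h6 : 1 * (q + 1) ^ (1 + 1) + 1 + (1 + 1) = q ^ 2 + 2 * q + 4 := by ring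
    have h7 : (1 + 1) * (q + 1) ^ 1 + 1 * (2 * 1 ^ 2 * q + 2 * (1 ^ 2 + 2 * 1)) = 4 * q + 8 := by
      ring
    rw [h6, h7]
    omega
  · have h1 := pow_ge hq h
    obtain ⟨c, hc⟩ : ∃ c, k * q = c + 1 := ⟨k * q - 1, by
      have : 0 < k * q := Nat.mul_pos (by omega) (by omega)
      omega⟩
    have h2 : c * (6 * k ^ 2) ≤ c * (q + 1) ^ k := Nat.mul_le_mul_left _ h1
    have h3 : k * (q + 1) ^ (k + 1) = c * (q + 1) ^ k + (k + 1) * (q + 1) ^ k := by
      rw [pow_succ]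
      have : k * ((q + 1) ^ k * (q + 1)) = (k * q + k) * (q + 1) ^ k := by ring
      rw [this, hc]
      ring
    have h4 : k * (2 * k ^ 2 * q + 2 * (k ^ 2 + 2 * k)) = 2 * k ^ 2 * (k * q) + 2 * k ^ 3 +
        4 * k ^ 2 := by ring
    have h5 : 2 * k ^ 2 * (c + 1) + 2 * k ^ 3 + 4 * k ^ 2 ≤ c * (6 * k ^ 2) := by
      have h6 : 4 * k ≤ k * q := by rw [Nat.mul_comm]; exact Nat.mul_le_mul_left _ hq
      have h7 : 2 * k + 6 ≤ 4 * c := by omega
      have h8 : (2 * k + 6) * k ^ 2 ≤ 4 * c * k ^ 2 := Nat.mul_le_mul_right _ h7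
      nlinarith
    rw [h3, h4, hc]
    omega

theorem numB {q j : ℕ} (hq : 4 ≤ q) :
    4 * (j + 1) ^ 2 * q + 4 * (j * (j + 3)) + q + 1 ≤ (q + 1) ^ (j + 2) + 1 := by
  rcases Nat.eq_zero_or_pos j with h | h
  · subst h
    have h5 : 4 * q ≤ q ^ 2 := by rw [pow_two]; exact Nat.mul_le_mul_right q hq
    have h6 : (q + 1) ^ (0 + 2) = q ^ 2 + 2 * q + 1 := by ring
    have h7 : 4 * (0 + 1) ^ 2 * q + 4 * (0 * (0 + 3)) + q + 1 = 5 * q + 1 := by ring
    rw [h6, h7]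
    omega
  · have h1 := pow_ge (k := j + 1) hq (by omega)
    have h2 : 6 * (j + 1) ^ 2 * (q + 1) ≤ (q + 1) ^ (j + 1) * (q + 1) := Nat.mul_le_mul_right _ h1
    rw [← pow_succ] at h2
    have h3 : 4 * (j + 1) ^ 2 * q + 4 * (j * (j + 3)) + q + 1 ≤ 6 * (j + 1) ^ 2 * (q + 1) + 1 := by
      have h4 : q ≤ (j + 1) ^ 2 * q := Nat.le_mul_of_pos_left _ (by positivity)
      have h5 : 4 * (j + 1) ^ 2 ≤ (j + 1) ^ 2 * q := by
        rw [Nat.mul_comm]; exact Nat.mul_le_mul_left _ hq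
      nlinarith
    exact h3.trans (Nat.add_le_add_right h2 1)

theorem pow_le_desc {p b k : ℕ} (hp : 2 ≤ p) (h : p ^ k ≤ 2 * b * k + 1) {δ : ℕ} (h1 : 1 ≤ δ)
    (h2 : δ ≤ k) : p ^ δ ≤ 2 * b * δ + 1 := by
  obtain ⟨e, rfl⟩ := Nat.exists_eq_add_of_le h2
  clear h2
  induction e with
  | zero => exact h
  | succ e ih =>
    apply ih
    have h3 : (δ + e) * p ^ (δ + (e + 1)) ≤ (δ + e) * (2 * b * (δ + (e + 1)) + 1) :=
      Nat.mul_le_mul_left _ h
    have h4 : p ^ (δ + (e + 1)) = p ^ (δ + e) * p := by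
      rw [← pow_succ]; rfl
    have h5 : (δ + e) * (p ^ (δ + e) * 2) ≤ (δ + e) * (p ^ (δ + e) * p) :=
      Nat.mul_le_mul_left _ (Nat.mul_le_mul_left _ hp)
    rw [h4] at h3
    have h6 : (δ + e + 1) * p ^ (δ + e) ≤ (δ + e) * (p ^ (δ + e) * 2) := by
      have : 1 * p ^ (δ + e) ≤ (δ + e) * p ^ (δ + e) := Nat.mul_le_mul_right _ (by omega)
      have e1 : (δ + e + 1) * p ^ (δ + e) = (δ + e) * p ^ (δ + e) + 1 * p ^ (δ + e) := by ring
      have e2 : (δ + e) * (p ^ (δ + e) * 2) = (δ + e) * p ^ (δ + e) + (δ + e) * p ^ (δ + e) := by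
        ring
      omega
    have h7 : (δ + e + 1) * p ^ (δ + e) ≤ (δ + e + 1) * (2 * b * (δ + e) + 1) := by
      have e1 : (δ + e) * (2 * b * (δ + (e + 1)) + 1) + 1 =
        (δ + e + 1) * (2 * b * (δ + e) + 1) := by ring
      omega
    exact Nat.le_of_mul_le_mul_left h7 (by omega)

theorem many_special (hp : 5 ≤ p) {V : Type} [AddCommGroup V] [Module (ZMod p) V] [Finite V]
    (F : Submodule (ZMod p) V) (hd : 2 ≤ finrank (ZMod p) F) (S : Finset V) (hSF : ∀ x ∈ S, x ∈ F)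
    (hS0 : 0 ∉ S) (hSn : ∀ x ∈ S, -x ∈ S) (r : ℕ)
    (hbig : ∀ r' < r, 2 * (p ^ finrank (ZMod p) F - (S.card - 2 * r' * (finrank (ZMod p) F + 1)))
      + p < p ^ finrank (ZMod p) F) :
    ∃ (κ : Type) (_ : Fintype κ) (R : κ → Finset V) (W : Finset V), Fintype.card κ = r ∧
      W ⊆ S ∧ (∀ x ∈ W, -x ∈ W) ∧ W.card = 2 * r * (finrank (ZMod p) F + 1) ∧
      (∀ k, HC p (R k) (finrank (ZMod p) F + 1) (finrank (ZMod p) F)) ∧
      ∀ x, x ∈ W ↔ ∃ k, x ∈ R k := by
  classical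
  induction r with
  | zero =>
    exact ⟨Empty, inferInstance, fun k => k.elim, ∅, by simp, by simp, by simp, by simp,
      fun k => k.elim, by simp⟩
  | succ r ih =>
    obtain ⟨κ, _, R, W, h1, h2, h3, h4, h5, h6⟩ := ih (fun r' hr' => hbig r' (by omega))
    obtain ⟨R', hR'1, hR'2, hR'3, hR'4⟩ := sel_special hp F hd (S \ W)
      (fun x hx => hSF x (mem_sdiff.1 hx).1) (fun h => hS0 (mem_sdiff.1 h).1)
      (fun x hx => mem_sdiff.2 ⟨hSn x (mem_sdiff.1 hx).1, fun h => (mem_sdiff.1 hx).2 (by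
        have := h3 _ h
        rwa [neg_neg] at this)⟩)
      (by
        rw [card_sdiff_of_subset h2, h4]
        exact hbig r (by omega))
    have hdis : Disjoint W R' := by
      rw [Finset.disjoint_left]
      intro x hx hx'
      exact (mem_sdiff.1 (hR'1 hx')).2 hx
    refine ⟨Option κ, inferInstance, fun o => o.elim R' R, W ∪ R', ?_, ?_, ?_, ?_, ?_, ?_⟩
    · rw [Fintype.card_option, h1]
    · exact union_subset h2 (hR'1.trans sdiff_subset)
    · intro x hx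
      rcases mem_union.1 hx with hx | hx
      · exact mem_union_left _ (h3 x hx)
      · exact mem_union_right _ (hR'2 x hx)
    · rw [card_union_of_disjoint hdis, h4, hR'3]
      ring
    · intro o
      cases o with
      | none => exact hR'4
      | some k => exact h5 k
    · intro x
      rw [mem_union, h6]
      constructor
      · rintro (⟨k, hk⟩ | hx)
        · exact ⟨some k, hk⟩
        · exact ⟨none, hx⟩
      · rintro ⟨o, ho⟩
        cases o with
        | none => exact Or.inr ho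
        | some k => exact Or.inl ⟨k, ho⟩

open Classical in
theorem half_system (hp : 3 ≤ p) {V : Type} [AddCommGroup V] [Module (ZMod p) V] [Finite V]
    (S : Finset V) (hS0 : 0 ∉ S) (hSn : ∀ x ∈ S, -x ∈ S) :
    ∃ T ⊆ S, (∀ x ∈ T, -x ∉ T) ∧ (∀ x, x ∈ S ↔ x ∈ T ∨ -x ∈ T) ∧ S.card = 2 * T.card ∧
      ∀ F : Submodule (ZMod p) V, (S.filter (fun x => x ∈ F)).card =
        2 * (T.filter (fun x => x ∈ F)).card := by
  have h20 : (2 : ZMod p) ≠ 0 := by
    have h1 : ((2 : ℕ) : ZMod p) ≠ 0 := by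
      rw [Ne, ZMod.natCast_eq_zero_iff]
      intro h
      have := Nat.le_of_dvd (by norm_num) h
      omega
    exact_mod_cast h1
  obtain ⟨T, hTS, hT1, hT2, _⟩ := halve2 S (fun x => -x) hSn (fun x _ => neg_neg x) (by
    intro s hs h
    have h1 : (2 : ZMod p) • s = 0 := by
      rw [two_smul]
      nth_rewrite 1 [← h]
      simp
    rcases smul_eq_zero.1 h1 with h2 | h2
    · exact h20 h2
    · exact hS0 (h2 ▸ hs))
  have hS : S = T ∪ T.image (fun x => -x) := by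
    ext x
    rw [mem_union, mem_image]
    constructor
    · intro hx
      rcases hT1 x hx with h | h
      · exact Or.inl h
      · exact Or.inr ⟨-x, h, neg_neg x⟩
    · rintro (h | ⟨y, hy, rfl⟩)
      · exact hTS h
      · exact hSn y (hTS hy)
  have hdis : Disjoint T (T.image (fun x => -x)) := by
    rw [← card_union_eq_card_add_card, ← hS, hT2, card_image_of_injective _ neg_injective]
    ring
  have hT3 : ∀ x ∈ T, -x ∉ T := by
    intro x hx hx'
    exact Finset.disjoint_left.1 hdis hx' (mem_image.2 ⟨x, hx, rfl⟩)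
  have hmem : ∀ x, x ∈ S ↔ x ∈ T ∨ -x ∈ T := by
    intro x
    constructor
    · exact hT1 x
    · rintro (h | h)
      · exact hTS h
      · have := hSn _ (hTS h)
        rwa [neg_neg] at this
  refine ⟨T, hTS, hT3, hmem, hT2, fun F => ?_⟩
  have h1 : S.filter (fun x => x ∈ F) = T.filter (fun x => x ∈ F) ∪
      (T.filter (fun x => x ∈ F)).image (fun x => -x) := by
    ext x
    rw [mem_filter, hmem, mem_union, mem_filter, mem_image]
    constructor
    · rintro ⟨h | h, hF⟩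
      · exact Or.inl ⟨h, hF⟩
      · exact Or.inr ⟨-x, mem_filter.2 ⟨h, F.neg_mem hF⟩, neg_neg x⟩
    · rintro (⟨h, hF⟩ | ⟨y, hy, rfl⟩)
      · exact ⟨Or.inl h, hF⟩
      · obtain ⟨hy1, hy2⟩ := mem_filter.1 hy
        exact ⟨Or.inr (by rwa [neg_neg]), F.neg_mem hy2⟩
  rw [h1, card_union_of_disjoint, card_image_of_injective _ neg_injective]
  · ring
  · exact disjoint_of_subset_left (filter_subset _ _)
      (disjoint_of_subset_right (image_subset_image (filter_subset _ _)) hdis)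

end Pool.Agent.TH486.LAC
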