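import Pool.Agent.TH486.LAC.Near

set_option autoImplicit false

/-!
The nearly full case: assembling special classes and bases.
-/

namespace Pool.Agent.TH486.LAC

open Finset Module SimpleGraph H931R3.LA Pool.Agent.W111.LAR

variable {p : ℕ} [Fact p.Prime]

open Classical in
/-- The Rado-Horn condition for the remaining elements. -/
theorem rh_cond {V : Type} [AddCommGroup V] [Module (ZMod p) V] [Finite V]
    (F : Submodule (ZMod p) V) (k b : ℕ) (_hk : finrank (ZMod p) F = k + 1) (T : Finset V)
    (hT : ∀ x ∈ T, -x ∉ T) (h1 : (T.filter (fun x => x ∈ F)).card = b * (k + 1))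
    (h2 : (T.filter (fun x => x ∉ F)).card ≤ b) (h3 : p ^ k ≤ 2 * b * k + 1) (A : Finset V)
    (hA : A ⊆ T) : A.card ≤ b * finrank (ZMod p) ↥(Submodule.span (ZMod p) (A : Set V)) := by
  have h0 : (0 : V) ∉ T := fun h => hT 0 h (by rwa [neg_zero])
  have hp1 : 2 ≤ p := (Fact.out : p.Prime).two_le
  set A1 := A.filter (fun x => x ∈ F) with hA1
  set A2 := A.filter (fun x => x ∉ F) with hA2
  have hA1T : A1 ⊆ T := (filter_subset _ _).trans hA
  have hsplit : A1.card + A2.card = A.card := card_filter_add_card_filter_not (fun x => x ∈ F)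
  have hA2c : A2.card ≤ b := (card_le_card (filter_subset_filter _ hA)).trans h2
  have claim : A1.card ≤ b * finrank (ZMod p) ↥(Submodule.span (ZMod p) (A1 : Set V)) := by
    rcases A1.eq_empty_or_nonempty with h | ⟨x, hx⟩
    · rw [h]; simp
    · have hpos : 0 < finrank (ZMod p) ↥(Submodule.span (ZMod p) (A1 : Set V)) := by
        rw [Module.finrank_pos_iff_exists_ne_zero]
        refine ⟨⟨x, Submodule.subset_span hx⟩, ?_⟩
        intro h
        have : x = 0 := congrArg Subtype.val h
        exact h0 (this ▸ hA1T hx)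
      rcases Nat.lt_or_ge k (finrank (ZMod p) ↥(Submodule.span (ZMod p) (A1 : Set V))) with h4 | h4
      · have h5 : A1.card ≤ b * (k + 1) := by
          rw [← h1]
          exact card_le_card (filter_subset_filter _ hA)
        exact h5.trans (Nat.mul_le_mul_left _ h4)
      · have h5 := half_card T hT (Submodule.span (ZMod p) (A1 : Set V))
        have h6 : A1.card ≤ (T.filter (fun x => x ∈ Submodule.span (ZMod p) (A1 : Set V))).card :=
          card_le_card fun y hy => mem_filter.2 ⟨hA1T hy, Submodule.subset_span hy⟩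
        have h7 := pow_le_desc hp1 h3 hpos h4
        have h8 : 2 * b * finrank (ZMod p) ↥(Submodule.span (ZMod p) (A1 : Set V)) =
          2 * (b * finrank (ZMod p) ↥(Submodule.span (ZMod p) (A1 : Set V))) := by ring
        omega
  have hmono : Submodule.span (ZMod p) (A1 : Set V) ≤ Submodule.span (ZMod p) (A : Set V) :=
    Submodule.span_mono (by exact_mod_cast filter_subset _ A)
  rcases A2.eq_empty_or_nonempty with h | ⟨x, hx⟩
  · rw [h, card_empty, add_zero] at hsplit
    rw [← hsplit]
    exact claim.trans (Nat.mul_le_mul_left _ (Submodule.finrank_mono hmono))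
  · have hlt : finrank (ZMod p) ↥(Submodule.span (ZMod p) (A1 : Set V)) <
        finrank (ZMod p) ↥(Submodule.span (ZMod p) (A : Set V)) := by
      apply Submodule.finrank_lt_finrank_of_lt
      refine lt_of_le_of_ne hmono fun h => ?_
      have h4 : x ∈ Submodule.span (ZMod p) (A1 : Set V) := by
        rw [h]; exact Submodule.subset_span (mem_filter.1 hx).1
      have h5 : Submodule.span (ZMod p) (A1 : Set V) ≤ F :=
        Submodule.span_le.2 fun y hy => (mem_filter.1 hy).2
      exact (mem_filter.1 hx).2 (h5 h4)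
    calc A.card = A1.card + A2.card := hsplit.symm
      _ ≤ b * finrank (ZMod p) ↥(Submodule.span (ZMod p) (A1 : Set V)) + b :=
          add_le_add claim hA2c
      _ = b * (finrank (ZMod p) ↥(Submodule.span (ZMod p) (A1 : Set V)) + 1) := by ring
      _ ≤ _ := Nat.mul_le_mul_left _ hlt

open Classical in
theorem near_full (hp : 5 ≤ p) {V : Type} [AddCommGroup V] [Module (ZMod p) V] [Finite V]
    (S : Finset V) (hS0 : 0 ∉ S)
    (hSn : ∀ x ∈ S, -x ∈ S) (F : Submodule (ZMod p) V) (hd : 2 ≤ finrank (ZMod p) F)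
    (hnear : p ^ finrank (ZMod p) F < (S.filter (fun x => x ∈ F)).card +
      2 * (finrank (ZMod p) F - 1) ^ 2 * (p - 1))
    (hout : (S.filter (fun x => x ∉ F)).card ≤ 2 * finrank (ZMod p) F)
    (G : SimpleGraph V) (hG : ∀ v w, G.Adj v w ↔ v ≠ w ∧ w - v ∈ S) :
    LD G (S.card / 2) := by
  obtain ⟨k, hk⟩ : ∃ k, finrank (ZMod p) F = k + 1 := ⟨finrank (ZMod p) F - 1, by omega⟩
  obtain ⟨q, hq⟩ : ∃ q, p = q + 1 := ⟨p - 1, by omega⟩
  have hk1 : 1 ≤ k := by omega
  obtain ⟨T, _, hT1, hT2, hT3, hT4⟩ := half_system (p := p) (by omega) S hS0 hSn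
  set s0 := (S.filter (fun x => x ∈ F)).card with hs0
  set t0 := (T.filter (fun x => x ∈ F)).card with ht0
  have hst : s0 = 2 * t0 := hT4 F
  have hhalf := half_card T hT1 F
  rw [← ht0, hk] at hhalf
  rw [hk, Nat.add_sub_cancel] at hnear
  rw [hk] at hout
  have hp1 : p - 1 = q := by omega
  rw [hp1] at hnear
  have hA := numC (q := q) (k := k) (by omega) hk1
  have hD := numD (q := q) (k := k) (by omega) hk1
  rw [← hq] at hA hD
  -- the numbers of classes
  set r := t0 % (k + 1) with hr
  have hrk : r ≤ k := by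
    have := Nat.mod_lt t0 (show 0 < k + 1 by omega)
    omega
  have hdiv : (k + 1) * (t0 / (k + 1)) + r = t0 := Nat.div_add_mod t0 (k + 1)
  have hpk : p ≤ p ^ k := by
    calc p = p ^ 1 := (pow_one p).symm
      _ ≤ p ^ k := Nat.pow_le_pow_right (by omega) hk1
  have hkpk : k + 1 ≤ (k + 1) * p ^ k := Nat.le_mul_of_pos_right _ (by omega)
  have hrr : r * (k + 2) ≤ k * (k + 2) := Nat.mul_le_mul_right _ hrk
  have ek : k * (k + 2) = k ^ 2 + 2 * k := by ring
  have ht0r : r * (k + 2) ≤ t0 := by omega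
  have hbr : r ≤ t0 / (k + 1) := by
    have e1 : r * (k + 2) = (k + 1) * r + r := by ring
    have e2 : (k + 1) * r ≤ (k + 1) * (t0 / (k + 1)) := by omega
    exact Nat.le_of_mul_le_mul_left e2 (by omega)
  set b := t0 / (k + 1) - r with hb
  have htb : t0 = r * (k + 2) + b * (k + 1) := by
    have e1 : t0 / (k + 1) = b + r := by omega
    rw [e1] at hdiv
    rw [← hdiv]; ring
  have hb1 : p ^ (k + 1) + 1 ≤ 2 * (b * (k + 1)) + 2 * k ^ 2 * q + 2 * (k ^ 2 + 2 * k) := by
    omega
  have hb2 : p ^ k ≤ 2 * b * k + 1 := by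
    have e1 : (k + 1) * p ^ k ≤ (k + 1) * (2 * b * k + 1) := by
      have e2 : (k + 1) * (2 * b * k + 1) = k * (2 * (b * (k + 1))) + k + 1 := by ring
      have e3 := Nat.mul_le_mul_left k hb1
      have e4 : k * (2 * (b * (k + 1)) + 2 * k ^ 2 * q + 2 * (k ^ 2 + 2 * k)) =
          k * (2 * (b * (k + 1))) + k * (2 * k ^ 2 * q + 2 * (k ^ 2 + 2 * k)) := by ring
      have e5 : k * (p ^ (k + 1) + 1) = k * p ^ (k + 1) + k := by ring
      omega
    exact Nat.le_of_mul_le_mul_left e1 (by omega)
  have hbk : k + 1 ≤ b := by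
    have e1 : (k + 1) * (k + 1) ≤ b * (k + 1) := by
      have e2 : 2 * (k + 1) ^ 2 = 2 * ((k + 1) * (k + 1)) := by ring
      omega
    exact Nat.le_of_mul_le_mul_right e1 (by omega)
  -- special classes
  obtain ⟨κ, _, R, W, hW1, hW2, hW3, hW4, hW5, hW6⟩ := many_special hp F hd
    (S.filter (fun x => x ∈ F)) (fun x hx => (mem_filter.1 hx).2)
    (fun h => hS0 (mem_filter.1 h).1)
    (fun x hx => mem_filter.2 ⟨hSn x (mem_filter.1 hx).1, F.neg_mem (mem_filter.1 hx).2⟩) r (by
      intro r' hr'
      rw [hk, ← hs0]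
      obtain ⟨j, hj⟩ : ∃ j, k = j + 1 := ⟨k - 1, by omega⟩
      have hB := numB (q := q) (j := j) (by omega)
      have e1 : (q + 1) ^ (j + 2) = p ^ (k + 1) := by rw [hq, hj]
      have e2 : 4 * (j + 1) ^ 2 * q = 2 * (2 * k ^ 2 * q) := by rw [hj]; ring
      have e3 : 2 * r' * (k + 1 + 1) ≤ 2 * (j * (j + 3)) := by
        have e4 : r' ≤ j := by omega
        have e5 : 2 * r' * (k + 1 + 1) = 2 * (r' * (j + 3)) := by rw [hj]; ring
        rw [e5]
        exact Nat.mul_le_mul_left _ (Nat.mul_le_mul_right _ e4)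
      rw [e1, e2] at hB
      omega)
  rw [hk] at hW4 hW5
  have hWS : W ⊆ S := hW2.trans (filter_subset _ _)
  have hWF : ∀ x ∈ W, x ∈ F := fun x hx => (mem_filter.1 (hW2 hx)).2
  -- the remaining half system
  obtain ⟨T1, hT1S, hT11, hT12, hT13, hT14⟩ := half_system (p := p) (by omega) (S \ W)
    (fun h => hS0 (mem_sdiff.1 h).1)
    (fun x hx => mem_sdiff.2 ⟨hSn x (mem_sdiff.1 hx).1, fun h => (mem_sdiff.1 hx).2 (by
        have := hW3 _ h
        rwa [neg_neg] at this)⟩)
  have hcF : ((S \ W).filter (fun x => x ∈ F)).card = s0 - W.card := by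
    have e1 : (S \ W).filter (fun x => x ∈ F) = S.filter (fun x => x ∈ F) \ W := by
      ext x
      simp only [mem_filter, mem_sdiff]
      tauto
    rw [e1, card_sdiff_of_subset hW2]
  have hT1F : (T1.filter (fun x => x ∈ F)).card = b * (k + 1) := by
    have e1 := hT14 F
    rw [hcF, hW4, hst, htb] at e1
    have e2 : 2 * r * (k + 1 + 1) = 2 * (r * (k + 2)) := by ring
    omega
  have hScard : s0 + (S.filter (fun x => x ∉ F)).card = S.card :=
    card_filter_add_card_filter_not (fun x => x ∈ F)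
  have hSWcard : (S \ W).card = S.card - W.card := card_sdiff_of_subset hWS
  have hWle : W.card ≤ s0 := card_le_card hW2
  have hT1card : (T1.filter (fun x => x ∈ F)).card + (T1.filter (fun x => x ∉ F)).card = T1.card :=
    card_filter_add_card_filter_not (fun x => x ∈ F)
  have hW4' : W.card = 2 * (r * (k + 2)) := by rw [hW4]; ring
  have hT1o : (T1.filter (fun x => x ∉ F)).card ≤ b := by omega
  -- the partition
  obtain ⟨c, hc1, hc2⟩ := equitable (K := ZMod p) (T := T1) (l := b) (by omega)
    (fun A hA => rh_cond F k b hk T1 hT11 hT1F hT1o hb2 A hA)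
  have hsum : ∑ j, (T1.filter (fun x => c x = j)).card = T1.card := by
    rw [← card_eq_sum_card_fiberwise (f := c) (t := univ) (fun x _ => mem_coe.2 (mem_univ _))]
  have hsizes : ∀ j, k + 1 ≤ (T1.filter (fun x => c x = j)).card := by
    intro j
    by_contra hcon
    push Not at hcon
    have h6 : ∑ i, (T1.filter (fun x => c x = i)).card + 1 ≤ ∑ _i : Fin b, (k + 1) := by
      rw [← add_sum_erase univ (fun i => (T1.filter (fun x => c x = i)).card) (mem_univ j),
        ← add_sum_erase univ (fun _ => k + 1) (mem_univ j)]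
      have h7 : ∑ i ∈ univ.erase j, (T1.filter (fun x => c x = i)).card ≤
          ∑ i ∈ univ.erase j, (k + 1) :=
        sum_le_sum fun i _ => by have := hc2 i j; omega
      omega
    rw [sum_const, card_univ, Fintype.card_fin, smul_eq_mul, hsum] at h6
    omega
  -- the final assembly
  let RR : κ ⊕ Fin b → Finset V := Sum.elim R (fun j => T1.filter (fun x => c x = j) ∪
    (T1.filter (fun x => c x = j)).image (fun x => -x))
  let NN : κ ⊕ Fin b → ℕ := Sum.elim (fun _ => k + 2) (fun j => (T1.filter (fun x => c x = j)).card)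
  let δδ : κ ⊕ Fin b → ℕ := Sum.elim (fun _ => k + 1) (fun j => (T1.filter (fun x => c x = j)).card)
  have hp0 : (0 : ℝ) < p := by
    have : 0 < p := by omega
    exact_mod_cast this
  have hpow : (0 : ℝ) < (p : ℝ) ^ (k + 1) := by positivity
  have hfin := ld_HC (p := p) RR NN δδ (by
    rintro (i | j)
    · exact hW5 i
    · refine hc_of_ham (hamClass_of_ind' hp (hc1 j)) ?_
      · intro x
        show x ∈ T1.filter (fun x => c x = j) ∪
          (T1.filter (fun x => c x = j)).image (fun x => -x) ↔ _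
        rw [mem_union, mem_image]
        constructor
        · rintro (h | ⟨y, hy, rfl⟩)
          · exact Or.inl h
          · exact Or.inr (by rwa [neg_neg])
        · rintro (h | h)
          · exact Or.inl h
          · exact Or.inr ⟨-x, h, neg_neg x⟩)
    (by
      rw [Fintype.sum_sum_type]
      have e1 : ∑ i : κ, ((NN (Sum.inl i) : ℕ) : ℝ) * (2 / (p : ℝ) ^ (δδ (Sum.inl i))) =
          (r : ℝ) * ((k + 2 : ℕ) * (2 / (p : ℝ) ^ (k + 1))) := by
        show ∑ _i : κ, ((k + 2 : ℕ) : ℝ) * (2 / (p : ℝ) ^ (k + 1)) = _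
        rw [sum_const, card_univ, hW1, nsmul_eq_mul]
      have e2 : ∑ j : Fin b, ((NN (Sum.inr j) : ℕ) : ℝ) * (2 / (p : ℝ) ^ (δδ (Sum.inr j))) ≤
          (b : ℝ) * (((k + 1 : ℕ) : ℝ) * (2 / (p : ℝ) ^ (k + 1))) := by
        have e3 : ∑ j : Fin b, ((NN (Sum.inr j) : ℕ) : ℝ) * (2 / (p : ℝ) ^ (δδ (Sum.inr j))) ≤
            ∑ _j : Fin b, ff p (k + 1) :=
          sum_le_sum fun j _ => ff_anti (by omega) (by omega) (hsizes j)
        rw [sum_const, card_univ, Fintype.card_fin, nsmul_eq_mul] at e3
        exact e3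
      rw [e1]
      refine (add_le_add_right e2 _).trans ?_
      have e4 : (r : ℝ) * ((k + 2 : ℕ) * (2 / (p : ℝ) ^ (k + 1))) +
          (b : ℝ) * (((k + 1 : ℕ) : ℝ) * (2 / (p : ℝ) ^ (k + 1))) =
          ((2 * (r * (k + 2) + b * (k + 1)) : ℕ) : ℝ) / (p : ℝ) ^ (k + 1) := by
        push_cast
        ring
      rw [e4, ← htb, div_le_one hpow]
      have e5 : ((2 * t0 : ℕ) : ℝ) ≤ ((p ^ (k + 1) : ℕ) : ℝ) := by
        exact_mod_cast (show 2 * t0 ≤ p ^ (k + 1) by omega)
      push_cast at e5 ⊢
      exact e5)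
    G (by
      intro v w
      rw [hG]
      have e1 : w - v ∈ S ↔ ∃ x, w - v ∈ RR x := by
        have e2 : ∀ z, z ∈ S ↔ z ∈ W ∨ z ∈ S \ W := by
          intro z
          rw [mem_sdiff]
          constructor
          · intro hz
            by_cases h : z ∈ W
            · exact Or.inl h
            · exact Or.inr ⟨hz, h⟩
          · rintro (h | h)
            · exact hWS h
            · exact h.1
        rw [e2, hW6, hT12]
        constructor
        · rintro (⟨i, hi⟩ | h | h)
          · exact ⟨Sum.inl i, hi⟩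
          · refine ⟨Sum.inr (c (w - v)), ?_⟩
            exact mem_union_left _ (mem_filter.2 ⟨h, rfl⟩)
          · refine ⟨Sum.inr (c (-(w - v))), ?_⟩
            exact mem_union_right _ (mem_image.2 ⟨_, mem_filter.2 ⟨h, rfl⟩, neg_neg _⟩)
        · rintro ⟨i | j, h⟩
          · exact Or.inl ⟨i, h⟩
          · right
            rcases mem_union.1 (show w - v ∈ T1.filter (fun x => c x = j) ∪
              (T1.filter (fun x => c x = j)).image (fun x => -x) from h) with h | h
            · exact Or.inl (mem_filter.1 h).1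
            · obtain ⟨y, hy, hyx⟩ := mem_image.1 h
              right
              rw [← hyx, neg_neg]
              exact (mem_filter.1 hy).1
      rw [e1])
  have hN : ∑ x, NN x = S.card / 2 := by
    rw [Fintype.sum_sum_type]
    have e1 : ∑ i : κ, NN (Sum.inl i) = r * (k + 2) := by
      show ∑ _i : κ, (k + 2) = _
      rw [sum_const, card_univ, hW1, smul_eq_mul]
    have e2 : ∑ j : Fin b, NN (Sum.inr j) = T1.card := hsum
    rw [e1, e2]
    omega
  rwa [hN] at hfin

end Pool.Agent.TH486.LAC
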