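import Pool.Agent.TH486.LAC.Torus
import Pool.Agent.W111.LAR.Cay2
import Pool.Agent.W111.LAR.Top

set_option autoImplicit false

/-!
Linear arboricity of Cayley graphs whose generators come in commuting pairs of equal order.
-/

namespace Pool.Agent.TH486.LAC

open Finset SimpleGraph H931R3.LA Pool.Agent.W111.LAR

variable {Γ : Type} [Group Γ]

theorem excl [Finite Γ] {s t : Γ} (hst : Commute s t) (hs : s ≠ 1) {x : Γ} (h1 : x ∈ DD s t)
    (h2 : x * t⁻¹ ∈ DD s t) : False := by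
  obtain ⟨i, hi, hx⟩ := h1
  have h3 := notD' hst x i (by omega) 0 (by
    have h4 : rp s t x * (s * t) ^ i * s ^ ((0 : ℕ) : ℤ) * t ^ (-1 : ℤ) = x * t⁻¹ := by
      rw [← hx]; simp
    rw [h4]
    exact h2)
  have h5 := h3.2
  rw [zero_add, Nat.dvd_one] at h5
  exact hs (orderOf_eq_one_iff.1 h5)

theorem Rg_deg [Finite Γ] {s t : Γ} (hst : Commute s t) (ho : orderOf s = orderOf t) (hs : s ≠ 1)
    (x : Γ) : ((Rg s t).neighborSet x).ncard ≤ 2 := by
  have ht : t ≠ 1 := by
    intro h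
    rw [h, orderOf_one] at ho
    exact hs (orderOf_eq_one_iff.1 ho)
  have hc : x * t⁻¹ * s⁻¹ = x * s⁻¹ * t⁻¹ := by
    rw [mul_assoc, mul_assoc, (hst.inv_inv).eq]
  have excl2 : ∀ {y : Γ}, y ∈ DD s t → y * s⁻¹ ∈ DD s t → False := by
    intro y h1 h2
    rw [DD_comm hst ho] at h1 h2
    exact excl hst.symm ht h1 h2
  have e1 : ¬ (x ∈ DD s t ∧ x * t⁻¹ ∈ DD s t) := fun h => excl hst hs h.1 h.2
  have e2 : ¬ (x ∈ DD s t ∧ x * s⁻¹ ∈ DD s t) := fun h => excl2 h.1 h.2
  have e3 : ¬ (x * s⁻¹ ∈ DD s t ∧ x * s⁻¹ * t⁻¹ ∈ DD s t) := fun h => excl hst hs h.1 h.2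
  have e4 : ¬ (x * t⁻¹ ∈ DD s t ∧ x * s⁻¹ * t⁻¹ ∈ DD s t) := fun h => excl2 h.1 (hc ▸ h.2)
  have hN : ∀ y, (Rg s t).Adj x y →
      (y = x * s ∧ x ∉ DD s t ∧ x * t⁻¹ ∉ DD s t) ∨
      (y = x * t ∧ (x ∈ DD s t ∨ x * s⁻¹ ∈ DD s t)) ∨
      (y = x * s⁻¹ ∧ x * s⁻¹ ∉ DD s t ∧ x * s⁻¹ * t⁻¹ ∉ DD s t) ∨
      (y = x * t⁻¹ ∧ (x * t⁻¹ ∈ DD s t ∨ x * s⁻¹ * t⁻¹ ∈ DD s t)) := by
    rintro y ⟨_, (h | h) | (⟨h, h'⟩ | ⟨h, h'⟩)⟩
    · exact Or.inl h
    · exact Or.inr (Or.inl h)
    · have hy : y = x * s⁻¹ := by rw [h, mul_inv_cancel_right]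
      subst hy
      exact Or.inr (Or.inr (Or.inl ⟨rfl, h'⟩))
    · have hy : y = x * t⁻¹ := by rw [h, mul_inv_cancel_right]
      subst hy
      rw [hc] at h'
      exact Or.inr (Or.inr (Or.inr ⟨rfl, h'⟩))
  have key : ∃ a b : Γ, (Rg s t).neighborSet x ⊆ {a, b} := by
    by_cases hα : x ∈ DD s t
    · have hβ : x * t⁻¹ ∉ DD s t := fun h => e1 ⟨hα, h⟩
      have hγ : x * s⁻¹ ∉ DD s t := fun h => e2 ⟨hα, h⟩
      by_cases hδ : x * s⁻¹ * t⁻¹ ∈ DD s t
      · refine ⟨x * t, x * t⁻¹, fun y hy => ?_⟩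
        rcases hN y hy with h | h | h | h
        · exact absurd hα h.2.1
        · exact Or.inl h.1
        · exact absurd hδ h.2.2
        · exact Or.inr h.1
      · refine ⟨x * t, x * s⁻¹, fun y hy => ?_⟩
        rcases hN y hy with h | h | h | h
        · exact absurd hα h.2.1
        · exact Or.inl h.1
        · exact Or.inr h.1
        · rcases h.2 with h' | h'
          · exact absurd h' hβ
          · exact absurd h' hδ
    · by_cases hβ : x * t⁻¹ ∈ DD s t
      · have hδ : x * s⁻¹ * t⁻¹ ∉ DD s t := fun h => e4 ⟨hβ, h⟩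
        by_cases hγ : x * s⁻¹ ∈ DD s t
        · refine ⟨x * t, x * t⁻¹, fun y hy => ?_⟩
          rcases hN y hy with h | h | h | h
          · exact absurd hβ h.2.2
          · exact Or.inl h.1
          · exact absurd hγ h.2.1
          · exact Or.inr h.1
        · refine ⟨x * t⁻¹, x * s⁻¹, fun y hy => ?_⟩
          rcases hN y hy with h | h | h | h
          · exact absurd hβ h.2.2
          · rcases h.2 with h' | h'
            · exact absurd h' hα
            · exact absurd h' hγ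
          · exact Or.inr h.1
          · exact Or.inl h.1
      · by_cases hγ : x * s⁻¹ ∈ DD s t
        · have hδ : x * s⁻¹ * t⁻¹ ∉ DD s t := fun h => e3 ⟨hγ, h⟩
          refine ⟨x * s, x * t, fun y hy => ?_⟩
          rcases hN y hy with h | h | h | h
          · exact Or.inl h.1
          · exact Or.inr h.1
          · exact absurd hγ h.2.1
          · rcases h.2 with h' | h'
            · exact absurd h' hβ
            · exact absurd h' hδ
        · by_cases hδ : x * s⁻¹ * t⁻¹ ∈ DD s t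
          · refine ⟨x * s, x * t⁻¹, fun y hy => ?_⟩
            rcases hN y hy with h | h | h | h
            · exact Or.inl h.1
            · rcases h.2 with h' | h'
              · exact absurd h' hα
              · exact absurd h' hγ
            · exact absurd hδ h.2.2
            · exact Or.inr h.1
          · refine ⟨x * s, x * s⁻¹, fun y hy => ?_⟩
            rcases hN y hy with h | h | h | h
            · exact Or.inl h.1
            · rcases h.2 with h' | h'
              · exact absurd h' hα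
              · exact absurd h' hγ
            · exact Or.inr h.1
            · rcases h.2 with h' | h'
              · exact absurd h' hβ
              · exact absurd h' hδ
  obtain ⟨a, b, hab⟩ := key
  refine le_trans (Set.ncard_le_ncard hab (Set.toFinite _)) ?_
  exact Set.ncard_insert_le _ _ |>.trans (by simp)

/-- The covering. -/
theorem cov_pairs [Finite Γ] (T : Finset Γ) (τ : Γ → Γ) (h1 : (1 : Γ) ∉ T)
    (hτ : ∀ s ∈ T, τ s ∈ T ∧ τ (τ s) = s ∧ Commute s (τ s) ∧ orderOf s = orderOf (τ s))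
    (hsum : ∑ s ∈ T, (2 : ℝ) / Nat.card (Subgroup.closure {s, τ s} : Subgroup Γ) ≤ 1)
    (G : SimpleGraph Γ) (hG : ∀ g h, G.Adj g h ↔ g⁻¹ * h ∈ T ∨ h⁻¹ * g ∈ T) :
    Cov G (T.card + 1) := by
  classical
  have hne : ∀ s ∈ T, s ≠ 1 := fun s hs h => h1 (h ▸ hs)
  have hGT : G = ⨆ s : T, Rg s.1 (τ s.1) := by
    ext g h
    rw [iSup_adj]
    have key : ∀ g h : Γ, g⁻¹ * h ∈ T → ∃ s : T, (Rg s.1 (τ s.1)).Adj g h := by
      intro g h hs
      set s := g⁻¹ * h with hsdef
      have hh : h = g * s := by rw [hsdef]; group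
      have hgh : g ≠ h := by
        intro e
        apply hne s hs
        rw [hsdef, e]; group
      by_cases hD : g ∈ DD s (τ s) ∨ g * (τ s)⁻¹ ∈ DD s (τ s)
      · refine ⟨⟨τ s, (hτ s hs).1⟩, hgh, Or.inl (Or.inr ?_)⟩
        show h = g * τ (τ s) ∧ (g ∈ DD (τ s) (τ (τ s)) ∨ g * (τ s)⁻¹ ∈ DD (τ s) (τ (τ s)))
        rw [(hτ s hs).2.1, ← DD_comm (hτ s hs).2.2.1 (hτ s hs).2.2.2]
        exact ⟨hh, hD⟩
      · push Not at hD
        exact ⟨⟨s, hs⟩, hgh, Or.inl (Or.inl ⟨hh, hD⟩)⟩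
    constructor
    · intro hh
      rcases (hG g h).1 hh with hs | hs
      · exact key g h hs
      · obtain ⟨s, hs'⟩ := key h g hs
        exact ⟨s, hs'.symm⟩
    · rintro ⟨s, _, hs⟩
      have hEd : ∀ x y : Γ, Ed s.1 (τ s.1) x y → x⁻¹ * y ∈ T := by
        rintro x y (⟨h, _⟩ | ⟨h, _⟩)
        · rw [h, inv_mul_cancel_left]; exact s.2
        · rw [h, inv_mul_cancel_left]; exact (hτ s.1 s.2).1
      rw [hG]
      rcases hs with hs | hs
      · exact Or.inl (hEd _ _ hs)
      · exact Or.inr (hEd _ _ hs)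
  have h2 := cov_of_load (fun s : T => Rg s.1 (τ s.1))
    (fun s g => Rg_deg (hτ s.1 s.2).2.2.1 (hτ s.1 s.2).2.2.2 (hne s.1 s.2) g) (by
      intro g
      refine le_trans ?_ hsum
      rw [← sum_coe_sort T]
      refine sum_le_sum fun s _ => ?_
      have hpos : (0 : ℝ) < Nat.card (Subgroup.closure {s.1, τ s.1} : Subgroup Γ) := by
        exact_mod_cast Nat.card_pos
      split_ifs with h
      · have h2 : (Nat.card (Subgroup.closure {s.1, τ s.1} : Subgroup Γ) : ℝ) ≤
            csize (Rg s.1 (τ s.1)) g := by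
          exact_mod_cast size_le (hτ s.1 s.2).2.2.1 (hne s.1 s.2) g
        exact div_le_div_of_nonneg_left (by norm_num) hpos h2
      · positivity)
  rwa [Fintype.card_coe, ← hGT] at h2

/-- The degree. -/
theorem deg_half [Finite Γ] (T : Finset Γ) (hT : ∀ s ∈ T, s⁻¹ ∉ T)
    (G : SimpleGraph Γ) (hG : ∀ g h, G.Adj g h ↔ g⁻¹ * h ∈ T ∨ h⁻¹ * g ∈ T) (g : Γ) :
    (G.neighborSet g).ncard = 2 * T.card := by
  classical
  have h1 := cay_deg (T ∪ T.image (fun s => s⁻¹)) G (by
    intro a b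
    rw [hG, mem_union, mem_image]
    constructor
    · rintro (h | h)
      · exact Or.inl h
      · exact Or.inr ⟨_, h, by group⟩
    · rintro (h | ⟨s, hs, h⟩)
      · exact Or.inl h
      · right
        have h4 : b⁻¹ * a = s := by
          have h3 := congrArg (fun x => x⁻¹) h
          simp only [inv_inv] at h3
          rw [h3]; group
        rwa [h4]) g
  rw [h1, card_union_of_disjoint, card_image_of_injective _ inv_injective]
  · ring
  · rw [Finset.disjoint_left]
    intro s hs hs'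
    obtain ⟨t, ht, rfl⟩ := mem_image.1 hs'
    exact hT t ht hs

end Pool.Agent.TH486.LAC
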