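import Pool.Agent.TH486.LAC.Tower

set_option autoImplicit false

/-!
Positions along a full cycle, and products with a rotation.
-/

namespace Pool.Agent.TH486.LAC

open Finset

variable {p : ℕ} [Fact p.Prime]

theorem Tr.card {Y : Type} [Finite Y] {f : Equiv.Perm Y} (hf : Tr f) (y0 : Y) :
    Function.minimalPeriod f y0 = Nat.card Y ∧ 0 < Function.minimalPeriod f y0 := by
  obtain ⟨n, hn⟩ := hf (f y0) y0
  have hper : y0 ∈ Function.periodicPts f := by
    refine Function.mk_mem_periodicPts (n := n + 1) (by omega) ?_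
    show f^[n + 1] y0 = y0
    rw [Function.iterate_succ_apply, Equiv.Perm.iterate_eq_pow]
    exact hn
  have hpos := Function.minimalPeriod_pos_of_mem_periodicPts hper
  refine ⟨?_, hpos⟩
  set T := Function.minimalPeriod f y0 with hT
  have hbij : Function.Bijective (fun k : Fin T => f^[(k : ℕ)] y0) := by
    constructor
    · intro a b hab
      exact Fin.ext (Function.iterate_injOn_Iio_minimalPeriod (f := f) (x := y0) a.2 b.2 hab)
    · intro y
      obtain ⟨m, hm⟩ := hf y0 y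
      refine ⟨⟨m % T, Nat.mod_lt _ hpos⟩, ?_⟩
      show f^[m % T] y0 = y
      rw [hT, Function.iterate_mod_minimalPeriod_eq, Equiv.Perm.iterate_eq_pow]
      exact hm
  rw [← Nat.card_eq_of_bijective _ hbij, Nat.card_fin]

theorem Tr.modEq {Y : Type} [Finite Y] {f : Equiv.Perm Y} (hf : Tr f) (y0 : Y) {i j : ℕ}
    (h : (f ^ i) y0 = (f ^ j) y0) {N : ℕ} (hN : N ∣ Nat.card Y) : (i : ZMod N) = (j : ZMod N) := by
  have key : ∀ i j : ℕ, i ≤ j → (f ^ i) y0 = (f ^ j) y0 → (i : ZMod N) = (j : ZMod N) := by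
    intro i j hij h
    obtain ⟨k, rfl⟩ := Nat.exists_eq_add_of_le hij
    rw [pow_add, Equiv.Perm.mul_apply] at h
    have h1 : y0 = (f ^ k) y0 := (f ^ i).injective h
    have h2 : Function.IsPeriodicPt f k y0 := by
      show f^[k] y0 = y0
      rw [Equiv.Perm.iterate_eq_pow]
      exact h1.symm
    have h3 : N ∣ k := by
      refine hN.trans ?_
      rw [← (hf.card y0).1]
      exact h2.minimalPeriod_dvd
    have h4 : (k : ZMod N) = 0 := (ZMod.natCast_eq_zero_iff _ _).2 h3
    push_cast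
    rw [h4, add_zero]
  rcases le_total i j with h1 | h1
  · exact key i j h1 h
  · exact (key j i h1 h.symm).symm

theorem exists_pos {Y : Type} [Finite Y] [Nonempty Y] (f : Equiv.Perm Y) (hf : Tr f)
    (u : Y → ZMod p) (hu : ∀ y, u (f y) = u y + 1) (N : ℕ) (hN : N ∣ Nat.card Y) (hpN : p ∣ N) :
    ∃ P : Y → ZMod N, (∀ y, P (f y) = P y + 1) ∧ (∀ y, (((P y).val : ℕ) : ZMod p) = u y) := by
  obtain ⟨y1⟩ := ‹Nonempty Y›
  have hun : ∀ (n : ℕ) (y : Y), u ((f ^ n) y) = u y + n := by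
    intro n
    induction n with
    | zero => intro y; simp
    | succ n ih =>
      intro y
      rw [pow_succ', Equiv.Perm.mul_apply, hu, ih]
      push_cast
      ring
  obtain ⟨y0, hy0⟩ : ∃ y0, u y0 = 0 := by
    refine ⟨(f ^ (-u y1).val) y1, ?_⟩
    rw [hun, ZMod.natCast_zmod_val]
    ring
  choose k hk using fun y => hf y0 y
  refine ⟨fun y => (k y : ZMod N), ?_, ?_⟩
  · intro y
    have h1 : (f ^ k (f y)) y0 = (f ^ (k y + 1)) y0 := by
      rw [hk, pow_succ', Equiv.Perm.mul_apply, hk]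
    have h2 := hf.modEq y0 h1 hN
    push_cast at h2
    exact h2
  · intro y
    have h1 : u y = (k y : ZMod p) := by
      have := hun (k y) y0
      rw [hk, hy0, zero_add] at this
      exact this
    rw [h1, ZMod.val_natCast, ZMod.natCast_eq_natCast_iff']
    exact Nat.mod_mod_of_dvd _ hpN

/-- A power of a full cycle with exponent prime to `p` is a full cycle. -/
theorem Tr.pow {Y : Type} [Finite Y] {f : Equiv.Perm Y} (hf : Tr f) {e m : ℕ}
    (hY : Nat.card Y = p ^ m) (he : ¬ p ∣ e) : Tr (f ^ e) := by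
  intro x y
  obtain ⟨n, hn⟩ := hf x y
  -- find `k` with `e k ≡ n` modulo `|Y|`
  have hcop : Nat.Coprime e (p ^ m) := by
    apply Nat.Coprime.pow_right
    exact ((Nat.Prime.coprime_iff_not_dvd (Fact.out : p.Prime)).2 he).symm
  have hMpos : 0 < p ^ m := Nat.pow_pos (Fact.out : p.Prime).pos
  have : NeZero (p ^ m) := ⟨hMpos.ne'⟩
  let k : ZMod (p ^ m) := (ZMod.unitOfCoprime e hcop)⁻¹ * (n : ZMod (p ^ m))
  have hk : ((e * k.val : ℕ) : ZMod (p ^ m)) = (n : ZMod (p ^ m)) := by
    push_cast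
    rw [ZMod.natCast_zmod_val]
    show (e : ZMod (p ^ m)) * (((ZMod.unitOfCoprime e hcop)⁻¹ : (ZMod (p ^ m))ˣ) *
      (n : ZMod (p ^ m))) = n
    rw [← mul_assoc]
    have h1 : (e : ZMod (p ^ m)) = (ZMod.unitOfCoprime e hcop : (ZMod (p ^ m))ˣ) :=
      (ZMod.coe_unitOfCoprime e hcop).symm
    rw [h1, Units.mul_inv, one_mul]
  refine ⟨k.val, ?_⟩
  rw [← pow_mul, ← hn, ← Equiv.Perm.iterate_eq_pow, ← Equiv.Perm.iterate_eq_pow]
  have hT := (hf.card x).1
  rw [hY] at hT
  rw [← Function.iterate_mod_minimalPeriod_eq (f := f) (n := e * k.val),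
    ← Function.iterate_mod_minimalPeriod_eq (f := f) (n := n), hT]
  rw [ZMod.natCast_eq_natCast_iff'] at hk
  rw [hk]

end Pool.Agent.TH486.LAC
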