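import Pool.Agent.TH486.LAC.Pos

set_option autoImplicit false

/-!
Permutations of a product of two cycles which are determined by the sum of the positions.
-/

namespace Pool.Agent.TH486.LAC

open Finset

variable {p : ℕ} [Fact p.Prime]

theorem pos_pow {Y : Type} {N : ℕ} {f : Equiv.Perm Y} {P : Y → ZMod N}
    (hP : ∀ y, P (f y) = P y + 1) (k : ℕ) (y : Y) : P ((f ^ k) y) = P y + k := by
  induction k with
  | zero => simp
  | succ k ih =>
    rw [pow_succ', Equiv.Perm.mul_apply, hP, ih]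
    push_cast
    ring

theorem pos_inj {X : Type} [Finite X] {N : ℕ} [NeZero N] {h : Equiv.Perm X} {P : X → ZMod N}
    (hP : ∀ x, P (h x) = P x + 1) (hcard : Nat.card X = N) : Function.Injective P := by
  have := Fintype.ofFinite X
  have hne : Nonempty X := by
    have h1 : 0 < Nat.card X := by rw [hcard]; exact Nat.pos_of_ne_zero (NeZero.ne N)
    exact (Nat.card_pos_iff.1 h1).1
  obtain ⟨x0⟩ := hne
  have hsurj : Function.Surjective P := by
    intro z
    refine ⟨(h ^ (z - P x0).val) x0, ?_⟩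
    rw [pos_pow hP, ZMod.natCast_zmod_val]
    ring
  have hc : Fintype.card X = Fintype.card (ZMod N) := by
    rw [ZMod.card, ← hcard, Nat.card_eq_fintype_card]
  exact ((Fintype.bijective_iff_surjective_and_card P).2 ⟨hsurj, hc⟩).1

theorem sum_range_all' {M : Type} [AddCommMonoid M] {N : ℕ} [NeZero N] (F : ZMod N → M)
    (t : ZMod N) (n : ℕ) (hn : Nat.Coprime n N) :
    ∑ j ∈ range N, F (t + j * n) = ∑ s, F s := by
  have h1 : ∑ j ∈ range N, F (t + j * n) = ∑ s : ZMod N, F (t + s * n) := by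
    refine sum_bij (fun j _ => (j : ZMod N)) (fun _ _ => mem_univ _) ?_ ?_ (fun _ _ => rfl)
    · intro a ha b hb hab
      rw [ZMod.natCast_eq_natCast_iff'] at hab
      rwa [Nat.mod_eq_of_lt (mem_range.1 ha), Nat.mod_eq_of_lt (mem_range.1 hb)] at hab
    · intro s _
      exact ⟨s.val, mem_range.2 (ZMod.val_lt s), ZMod.natCast_zmod_val s⟩
  rw [h1]
  have h2 : (n : ZMod N) = (ZMod.unitOfCoprime n hn : (ZMod N)ˣ) :=
    (ZMod.coe_unitOfCoprime n hn).symm
  rw [h2]
  exact Equiv.sum_comp ((Units.mulRight (ZMod.unitOfCoprime n hn)).trans (Equiv.addLeft t)) F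

theorem tr_rot {X Y : Type} [Finite X] [Finite Y] {N a b : ℕ} [NeZero N]
    {h : Equiv.Perm X} {f : Equiv.Perm Y} (hf : Tr f) (hN : N = p ^ a) (hX : Nat.card X = N)
    (hY : Nat.card Y = p ^ b)
    {PX : X → ZMod N} (hPX : ∀ x, PX (h x) = PX x + 1)
    {PY : Y → ZMod N} (hPY : ∀ y, PY (f y) = PY y + 1)
    (Φ : Equiv.Perm (X × Y)) (α β : ZMod N → ℕ) (n : ℕ) (hn : ¬ p ∣ n)
    (hαβ : ∀ s, α s + β s = n)
    (hΦ : ∀ x y, Φ (x, y) = ((h ^ α (PX x + PY y)) x, (f ^ β (PX x + PY y)) y))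
    (hB : ¬ p ∣ ∑ s, β s) : Tr Φ := by
  have hcop : Nat.Coprime n N := by
    rw [hN]
    apply Nat.Coprime.pow_right
    exact ((Nat.Prime.coprime_iff_not_dvd (Fact.out : p.Prime)).2 hn).symm
  have hstep : ∀ z : X × Y, PX (Φ z).1 + PY (Φ z).2 = PX z.1 + PY z.2 + n := by
    rintro ⟨x, y⟩
    rw [hΦ]
    show PX ((h ^ α (PX x + PY y)) x) + PY ((f ^ β (PX x + PY y)) y) = PX x + PY y + n
    rw [pos_pow hPX, pos_pow hPY, ← hαβ (PX x + PY y)]
    push_cast
    ring
  have hstepk : ∀ (k : ℕ) (z : X × Y),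
      PX ((Φ ^ k) z).1 + PY ((Φ ^ k) z).2 = PX z.1 + PY z.2 + k * n := by
    intro k
    induction k with
    | zero => intro z; simp
    | succ k ih =>
      intro z
      rw [pow_succ', Equiv.Perm.mul_apply, hstep, ih]
      push_cast
      ring
  have hsnd : ∀ (k : ℕ) (z : X × Y), ((Φ ^ k) z).2 =
      (f ^ (∑ j ∈ range k, β (PX z.1 + PY z.2 + j * n))) z.2 := by
    intro k
    induction k with
    | zero => intro z; simp
    | succ k ih =>
      intro z
      rw [pow_succ', Equiv.Perm.mul_apply, sum_range_succ, add_comm, pow_add,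
        Equiv.Perm.mul_apply, ← ih z]
      have h1 := hΦ ((Φ ^ k) z).1 ((Φ ^ k) z).2
      rw [hstepk k z] at h1
      exact congrArg Prod.snd h1
  have hsndN : ∀ z : X × Y, ((Φ ^ N) z).2 = (f ^ (∑ s, β s)) z.2 := by
    intro z
    rw [hsnd, sum_range_all' β _ n hcop]
  have hsndNm : ∀ (m : ℕ) (z : X × Y), ((Φ ^ (N * m)) z).2 = ((f ^ (∑ s, β s)) ^ m) z.2 := by
    intro m
    induction m with
    | zero => intro z; simp
    | succ m ih =>
      intro z
      rw [Nat.mul_succ, Nat.add_comm, pow_add, Equiv.Perm.mul_apply, hsndN, ih, pow_succ',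
        Equiv.Perm.mul_apply]
  have hfB : Tr (f ^ (∑ s, β s)) := hf.pow hY hB
  have hinj := pos_inj hPX hX
  -- slices
  have hslice : ∀ z z' : X × Y, PX z.1 + PY z.2 = PX z'.1 + PY z'.2 → ∃ m : ℕ, (Φ ^ m) z = z' := by
    intro z z' hzz
    obtain ⟨m, hm⟩ := hfB z.2 z'.2
    refine ⟨N * m, ?_⟩
    have h1 := hsndNm m z
    rw [hm] at h1
    have h2 := hstepk (N * m) z
    rw [h1, hzz] at h2
    refine Prod.ext (hinj ?_) h1
    have h3 : ((N * m : ℕ) : ZMod N) = 0 := by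
      rw [ZMod.natCast_eq_zero_iff]
      exact Dvd.intro m rfl
    rw [h3, zero_mul, add_zero] at h2
    linear_combination h2
  intro z1 z2
  -- go to the slice of `z2`
  let v : ZMod N := (PX z2.1 + PY z2.2 - (PX z1.1 + PY z1.2)) *
    ((ZMod.unitOfCoprime n hcop)⁻¹ : (ZMod N)ˣ)
  have hv : PX ((Φ ^ v.val) z1).1 + PY ((Φ ^ v.val) z1).2 = PX z2.1 + PY z2.2 := by
    rw [hstepk, ZMod.natCast_zmod_val]
    have h2 : (n : ZMod N) = (ZMod.unitOfCoprime n hcop : (ZMod N)ˣ) :=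
      (ZMod.coe_unitOfCoprime n hcop).symm
    rw [h2]
    show _ + (PX z2.1 + PY z2.2 - (PX z1.1 + PY z1.2)) *
      ((ZMod.unitOfCoprime n hcop)⁻¹ : (ZMod N)ˣ) * (ZMod.unitOfCoprime n hcop : (ZMod N)ˣ) = _
    rw [mul_assoc, Units.inv_mul, mul_one]
    ring
  obtain ⟨m, hm⟩ := hslice _ _ hv
  exact ⟨m + v.val, by rw [pow_add, Equiv.Perm.mul_apply, hm]⟩

end Pool.Agent.TH486.LAC
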