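import Pool.Agent.TH486.LAC.Factor3

set_option autoImplicit false

/-!
Finding a special class in a nearly full set.
-/

namespace Pool.Agent.TH486.LAC

open Finset Module SimpleGraph H931R3.LA Pool.Agent.W111.LAR

variable {p : ℕ} [Fact p.Prime]

theorem sub_card {V : Type} [AddCommGroup V] [Module (ZMod p) V] [Finite V]
    (W : Submodule (ZMod p) V) : (W : Set V).ncard = p ^ finrank (ZMod p) W := by
  have h4 : Nat.card W = Nat.card (ZMod p) ^ finrank (ZMod p) W := Module.natCard_eq_pow_finrank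
  rw [Nat.card_zmod] at h4
  exact h4

theorem sel_special (hp : 5 ≤ p) {V : Type} [AddCommGroup V] [Module (ZMod p) V] [Finite V]
    (F : Submodule (ZMod p) V) (hd : 2 ≤ finrank (ZMod p) F) (Z : Finset V) (hZF : ∀ x ∈ Z, x ∈ F)
    (hZ0 : 0 ∉ Z) (hZn : ∀ x ∈ Z, -x ∈ Z)
    (hbig : 2 * (p ^ finrank (ZMod p) F - Z.card) + p < p ^ finrank (ZMod p) F) :
    ∃ R ⊆ Z, (∀ x ∈ R, -x ∈ R) ∧ R.card = 2 * (finrank (ZMod p) F + 1) ∧
      HC p R (finrank (ZMod p) F + 1) (finrank (ZMod p) F) := by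
  classical
  have := Fintype.ofFinite V
  set d := finrank (ZMod p) F with hddef
  have h20 : (2 : ZMod p) ≠ 0 := by
    have h1 : ((2 : ℕ) : ZMod p) ≠ 0 := by
      rw [Ne, ZMod.natCast_eq_zero_iff]
      intro h
      have := Nat.le_of_dvd (by norm_num) h
      omega
    exact_mod_cast h1
  have h21 : (2 : ZMod p) ≠ 1 := by
    intro h
    have h1 : (1 : ZMod p) = 0 := by linear_combination h
    exact one_ne_zero h1
  -- the subspace as a finset
  let FF : Finset V := univ.filter (fun x => x ∈ F)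
  have hFFc : (FF : Set V) = (F : Set V) := by
    ext x; simp [FF]
  have hFF : FF.card = p ^ d := by
    rw [← Set.ncard_coe_finset, hFFc, sub_card]
  have hZFF : Z ⊆ FF := fun x hx => mem_filter.2 ⟨mem_univ _, hZF x hx⟩
  have hZle : Z.card ≤ p ^ d := hFF ▸ card_le_card hZFF
  obtain ⟨a, ha⟩ : Z.Nonempty := by
    rw [nonempty_iff_ne_empty]
    intro h
    rw [h, card_empty] at hbig
    omega
  have ha0 : a ≠ 0 := fun h => hZ0 (h ▸ ha)
  have haF := hZF a ha
  -- the second element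
  obtain ⟨b, hbZ, hcZ, hbspan⟩ : ∃ b ∈ Z, (2 : ZMod p) • a - b ∈ Z ∧
      b ∉ Submodule.span (ZMod p) {a} := by
    let B1 := FF \ Z
    let B2 := B1.image (fun y => (2 : ZMod p) • a - y)
    let B3 : Finset V := univ.filter (fun x => x ∈ Submodule.span (ZMod p) {a})
    have hB1 : B1.card = p ^ d - Z.card := by
      rw [card_sdiff_of_subset hZFF, hFF]
    have hB2 : B2.card ≤ p ^ d - Z.card := hB1 ▸ card_image_le
    have hB3 : B3.card ≤ p := by
      have h1 : (B3 : Set V) = (Submodule.span (ZMod p) {a} : Set V) := by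
        ext x; simp [B3]
      have h2 : B3.card = p ^ finrank (ZMod p) (Submodule.span (ZMod p) {a}) := by
        rw [← Set.ncard_coe_finset, h1, sub_card]
      rw [h2]
      have h3 : finrank (ZMod p) (Submodule.span (ZMod p) {a}) ≤ 1 := (finrank_span_singleton ha0).le
      calc p ^ finrank (ZMod p) (Submodule.span (ZMod p) {a}) ≤ p ^ 1 :=
            Nat.pow_le_pow_right (by omega) h3
        _ = p := pow_one p
    have hcard : (B1 ∪ B2 ∪ B3).card < FF.card := by
      have h1 := card_union_le (B1 ∪ B2) B3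
      have h2 := card_union_le B1 B2
      omega
    obtain ⟨b, hb1, hb2⟩ := exists_mem_notMem_of_card_lt_card hcard
    rw [mem_union, mem_union] at hb2
    push Not at hb2
    obtain ⟨⟨hb3, hb4⟩, hb5⟩ := hb2
    have hbF : b ∈ F := (mem_filter.1 hb1).2
    refine ⟨b, ?_, ?_, ?_⟩
    · by_contra h
      exact hb3 (mem_sdiff.2 ⟨hb1, h⟩)
    · by_contra h
      apply hb4
      refine mem_image.2 ⟨(2 : ZMod p) • a - b, mem_sdiff.2 ⟨mem_filter.2 ⟨mem_univ _, ?_⟩, h⟩, ?_⟩
      · exact F.sub_mem (F.smul_mem _ haF) hbF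
      · abel
    · intro h
      exact hb5 (mem_filter.2 ⟨mem_univ _, h⟩)
  have hba : b ≠ a := fun h => hbspan (by rw [h]; exact Submodule.mem_span_singleton_self a)
  have hli2 : LinearIndepOn (ZMod p) id ({b, a} : Set V) :=
    (LinearIndepOn.singleton (v := id) ha0).id_insert hbspan
  obtain ⟨I0, hI0Z, hab, hZspan, hI0⟩ := exists_linearIndepOn_id_extension hli2
    (t := (Z : Set V)) (by
      rintro x (rfl | rfl)
      · exact hbZ
      · exact ha)
  have hspanF : Submodule.span (ZMod p) I0 = F := by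
    apply Submodule.eq_of_le_of_finrank_le
    · exact Submodule.span_le.2 fun x hx => hZF x (hI0Z hx)
    · by_contra hcon
      push Not at hcon
      have h1 := Set.ncard_le_ncard hZspan (Set.toFinite _)
      rw [Set.ncard_coe_finset, sub_card] at h1
      have h2 : p ^ finrank (ZMod p) (Submodule.span (ZMod p) I0) ≤ p ^ (d - 1) :=
        Nat.pow_le_pow_right (by omega) (by omega)
      have h3 : p ^ d = p ^ (d - 1) * p := by
        rw [← pow_succ]; congr 1; omega
      have h4 : p ^ (d - 1) * 2 ≤ p ^ (d - 1) * p := Nat.mul_le_mul_left _ (by omega)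
      omega
  have hli0 := hI0.linearIndependent
  have : Fintype I0 := Fintype.ofFinite I0
  have hcardI0 : Fintype.card I0 = d := by
    rw [linearIndependent_iff_card_eq_finrank_span] at hli0
    have h1 : Set.range (fun x : I0 => id (x : V)) = I0 := Subtype.range_coe
    rw [h1] at hli0
    rw [hli0, Set.finrank, hspanF]
  obtain ⟨E, _, _, _, D, _, bs, D0, D1, h4, h3', hdec⟩ := ds_all hp d hd
  let e : D ≃ I0 := Fintype.equivOfCardEq (by rw [h3', hcardI0])
  have haI : a ∈ I0 := hab (by simp)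
  have hbI : b ∈ I0 := hab (by simp)
  let e1 : D ≃ I0 := (Equiv.swap D0 (e.symm ⟨a, haI⟩)).trans e
  have he1 : e1 D0 = ⟨a, haI⟩ := by simp [e1]
  let e2 : D ≃ I0 := (Equiv.swap D1 (e1.symm ⟨b, hbI⟩)).trans e1
  have he2b : e2 D1 = ⟨b, hbI⟩ := by simp [e2]
  have he2a : e2 D0 = ⟨a, haI⟩ := by
    have h6 : D0 ≠ e1.symm ⟨b, hbI⟩ := by
      intro h7
      have h8 : e1 D0 = ⟨b, hbI⟩ := by rw [h7, Equiv.apply_symm_apply]
      rw [he1] at h8
      exact hba (congrArg Subtype.val h8).symm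
    show e1 (Equiv.swap D1 (e1.symm ⟨b, hbI⟩) D0) = _
    rw [Equiv.swap_apply_of_ne_of_ne h4 h6, he1]
  let vec : D → V := fun x => (e2 x : V)
  have hvec0 : vec D0 = a := by simp [vec, he2a]
  have hvec1 : vec D1 = b := by simp [vec, he2b]
  have hvec : LinearIndependent (ZMod p) vec := hli0.comp e2 e2.injective
  have hvecZ : ∀ x, vec x ∈ Z := fun x => hI0Z (e2 x).2
  obtain ⟨Θ, hΘinj, hΘs⟩ := exists_emb bs vec hvec
  obtain ⟨P, hP1, hP2⟩ := factors3 hdec.dec Θ hΘinj
  have hΘc : Θ ((2 : ZMod p) • bs D0 - bs D1) = (2 : ZMod p) • a - b := by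
    rw [map_sub, map_smul, hΘs, hΘs, hvec0, hvec1]
  -- the generators
  let Js : Finset V := insert ((2 : ZMod p) • a - b) (univ.image vec)
  have hJmem : ∀ x, x ∈ Js ↔
      ∃ g ∈ insert ((2 : ZMod p) • bs D0 - bs D1) (Set.range bs), x = Θ g := by
    intro x
    rw [mem_insert, mem_image]
    constructor
    · rintro (rfl | ⟨y, _, rfl⟩)
      · exact ⟨_, Or.inl rfl, hΘc.symm⟩
      · exact ⟨_, Or.inr ⟨y, rfl⟩, (hΘs y).symm⟩
    · rintro ⟨_, rfl | ⟨y, rfl⟩, rfl⟩
      · left
        exact hΘc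
      · right
        exact ⟨y, mem_univ _, (hΘs y).symm⟩
  obtain ⟨σ, hσ⟩ : ∃ σ : E →ₗ[ZMod p] ZMod p, ∀ y, σ (bs y) = 1 :=
    ⟨bs.constr (ZMod p) (fun _ => (1 : ZMod p)), fun y => by rw [Basis.constr_basis]⟩
  have hgsum : ∀ g ∈ insert ((2 : ZMod p) • bs D0 - bs D1) (Set.range bs), σ g = 1 := by
    rintro _ (rfl | ⟨y, rfl⟩)
    · rw [map_sub, map_smul, hσ, hσ, smul_eq_mul]
      norm_num
    · exact hσ y
  have hJcard : Js.card = d + 1 := by
    rw [card_insert_of_notMem, card_image_of_injective _ hvec.injective,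
      card_univ, h3']
    intro hmem
    obtain ⟨y, _, hy⟩ := mem_image.1 hmem
    rw [← hΘs, ← hΘc] at hy
    have h6 := hΘinj hy
    have h8 := congrArg (fun z => bs.repr z D0) h6
    simp only [map_sub, map_smul, Basis.repr_self, Finsupp.sub_apply, Finsupp.smul_apply,
      Finsupp.single_eq_same, smul_eq_mul, mul_one] at h8
    rw [Finsupp.single_eq_of_ne h4, sub_zero] at h8
    by_cases hyD : D0 = y
    · rw [← hyD, Finsupp.single_eq_same] at h8
      exact h21 h8.symm
    · rw [Finsupp.single_eq_of_ne hyD] at h8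
      exact h20 h8.symm
  have hdisj : Disjoint Js (Js.image (fun x => -x)) := by
    rw [Finset.disjoint_left]
    intro x hx hx'
    obtain ⟨y, hy, hyx⟩ := mem_image.1 hx'
    obtain ⟨g1, hg1, hi⟩ := (hJmem x).1 hx
    obtain ⟨g2, hg2, hj⟩ := (hJmem y).1 hy
    have h6 : Θ (g1 + g2) = Θ 0 := by
      rw [map_add, map_zero, ← hi, ← hj, ← hyx]
      simp
    have h8 := congrArg σ (hΘinj h6)
    rw [map_add, map_zero, hgsum _ hg1, hgsum _ hg2] at h8
    apply h20
    linear_combination h8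
  have hJZ : Js ⊆ Z := by
    intro x hx
    rcases mem_insert.1 hx with rfl | hx
    · exact hcZ
    · obtain ⟨y, _, rfl⟩ := mem_image.1 hx
      exact hvecZ y
  refine ⟨Js ∪ Js.image (fun x => -x), ?_, ?_, ?_, ?_⟩
  · apply union_subset hJZ
    intro x hx
    obtain ⟨y, hy, rfl⟩ := mem_image.1 hx
    exact hZn y (hJZ hy)
  · intro x hx
    rcases mem_union.1 hx with hx | hx
    · exact mem_union_right _ (mem_image.2 ⟨x, hx, rfl⟩)
    · obtain ⟨y, hy, rfl⟩ := mem_image.1 hx
      exact mem_union_left _ (by rwa [neg_neg])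
  · rw [card_union_of_disjoint hdisj, card_image_of_injective _ neg_injective, hJcard]
    ring
  · refine ⟨P, fun i v => ?_, fun v w => ?_⟩
    · have h6 := hP1 i v
      rw [card_of_basis bs, h3'] at h6
      exact h6
    · rw [hP2, mem_union, mem_image, hJmem]
      constructor
      · rintro ⟨hne, h7 | ⟨g1, hg1, hi⟩⟩
        · exact ⟨hne, Or.inl h7⟩
        · exact ⟨hne, Or.inr ⟨v - w, (hJmem _).2 ⟨g1, hg1, hi⟩, by abel⟩⟩
      · rintro ⟨hne, h7 | ⟨y, hy, hyx⟩⟩
        · exact ⟨hne, Or.inl h7⟩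
        · obtain ⟨g1, hg1, hi⟩ := (hJmem y).1 hy
          refine ⟨hne, Or.inr ⟨g1, hg1, ?_⟩⟩
          have h8 : v - w = y := by
            have h9 : -(w - v) = y := by rw [← hyx, neg_neg]
            rw [← h9]; abel
          rw [h8, hi]

end Pool.Agent.TH486.LAC
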