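import Pool.Agent.W111.LAR.Crit

set_option autoImplicit false

/-!
Two commuting elements of equal order: the Cayley graph is the union of two graphs of maximum
degree two whose components are the cosets of the generated subgroup (Kotzig's staircase).
-/

namespace Pool.Agent.TH486.LAC

open SimpleGraph H931R3.LA Pool.Agent.W111.LAR

variable {Γ : Type} [Group Γ]

/-- The subgroup generated by two elements. -/
abbrev AA (s t : Γ) : Subgroup Γ := Subgroup.closure {s, t}

theorem AA_comm (s t : Γ) : AA s t = AA t s := by rw [AA, Set.pair_comm]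

theorem s_mem (s t : Γ) : s ∈ AA s t := Subgroup.subset_closure (Or.inl rfl)

theorem t_mem (s t : Γ) : t ∈ AA s t := Subgroup.subset_closure (Or.inr rfl)

theorem mem_AA {s t : Γ} (hst : Commute s t) {a : Γ} (ha : a ∈ AA s t) :
    ∃ m n : ℤ, a = s ^ m * t ^ n := by
  refine Subgroup.closure_induction (p := fun a _ => ∃ m n : ℤ, a = s ^ m * t ^ n) ?_ ?_ ?_ ?_ ha
  · rintro x (rfl | hx)
    · exact ⟨1, 0, by simp⟩
    · rw [Set.mem_singleton_iff] at hx
      subst hx
      exact ⟨0, 1, by simp⟩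
  · exact ⟨0, 0, by simp⟩
  · rintro x y _ _ ⟨m, n, rfl⟩ ⟨m', n', rfl⟩
    refine ⟨m + m', n + n', ?_⟩
    have h1 : t ^ n * s ^ m' = s ^ m' * t ^ n := ((hst.zpow_zpow m' n).eq).symm
    rw [zpow_add, zpow_add, mul_assoc, ← mul_assoc (t ^ n), h1]
    group
  · rintro x _ ⟨m, n, rfl⟩
    refine ⟨-m, -n, ?_⟩
    have h1 : s ^ (-m) * t ^ (-n) = t ^ (-n) * s ^ (-m) := (hst.zpow_zpow (-m) (-n)).eq
    rw [h1, mul_inv_rev, zpow_neg, zpow_neg]

/-- Representative of the coset of `x`. -/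
noncomputable def rp (s t : Γ) (x : Γ) : Γ := (QuotientGroup.mk x : Γ ⧸ AA s t).out

theorem rp_mem (s t : Γ) (x : Γ) : (rp s t x)⁻¹ * x ∈ AA s t := by
  rw [← QuotientGroup.eq]
  exact Quotient.out_eq _

theorem rp_congr {s t : Γ} {x y : Γ} (h : x⁻¹ * y ∈ AA s t) : rp s t x = rp s t y := by
  unfold rp
  rw [QuotientGroup.eq.2 h]

theorem rp_comm (s t : Γ) (x : Γ) : rp s t x = rp t s x := by
  unfold rp
  rw [AA_comm]

/-- The least positive `i` with `t ^ i ∈ ⟨s⟩`. -/
noncomputable def qq (s t : Γ) : ℕ :=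
  MulAction.period t ((1 : Γ) : Γ ⧸ Subgroup.zpowers s)

theorem zmem_iff (s t : Γ) (j : ℤ) : t ^ j ∈ Subgroup.zpowers s ↔ (qq s t : ℤ) ∣ j := by
  rw [qq, ← MulAction.zpow_smul_eq_iff_period_dvd, MulAction.Quotient.smul_coe, smul_eq_mul,
    mul_one, QuotientGroup.eq]
  simp

theorem qq_pos [Finite Γ] (s t : Γ) : 0 < qq s t := by
  rcases Nat.eq_zero_or_pos (qq s t) with h | h
  · have h1 := (zmem_iff s t (orderOf t)).1 (by
      rw [zpow_natCast, pow_orderOf_eq_one]; exact one_mem _)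
    rw [h] at h1
    have h2 : (orderOf t : ℤ) = 0 := by simpa using h1
    have := orderOf_pos t
    omega
  · exact h

theorem qq_comm [Finite Γ] {s t : Γ} (ho : orderOf s = orderOf t) : qq s t = qq t s := by
  have h0 : ∀ a b : Γ, qq a b ∣ orderOf b := by
    intro a b
    have h1 := (zmem_iff a b (orderOf b)).1 (by
      rw [zpow_natCast, pow_orderOf_eq_one]; exact one_mem _)
    exact_mod_cast h1
  have h1 : ∀ a b : Γ, Subgroup.zpowers (b ^ qq a b) = Subgroup.zpowers a ⊓ Subgroup.zpowers b := by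
    intro a b
    apply le_antisymm
    · rw [Subgroup.zpowers_le]
      refine ⟨?_, Subgroup.pow_mem _ (Subgroup.mem_zpowers b) _⟩
      have := (zmem_iff a b (qq a b)).2 dvd_rfl
      rwa [zpow_natCast] at this
    · rintro x ⟨h1, i, rfl⟩
      obtain ⟨c, hc⟩ := (zmem_iff a b i).1 h1
      refine ⟨c, ?_⟩
      show (b ^ qq a b) ^ c = b ^ i
      rw [hc, zpow_mul, zpow_natCast]
  have h2 : orderOf (t ^ qq s t) = orderOf (s ^ qq t s) := by
    rw [← Nat.card_zpowers, ← Nat.card_zpowers, h1, h1, inf_comm]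
  rw [orderOf_pow_of_dvd (qq_pos s t).ne' (h0 s t), orderOf_pow_of_dvd (qq_pos t s).ne' (h0 t s),
    ho] at h2
  obtain ⟨c, hc⟩ := h0 s t
  obtain ⟨d, hd⟩ := h0 t s
  rw [ho] at hd
  have hpos := orderOf_pos t
  have e1 : orderOf t / qq s t = c := by
    rw [hc, Nat.mul_div_cancel_left _ (qq_pos s t)]
  have e2 : orderOf t / qq t s = d := by
    rw [hd, Nat.mul_div_cancel_left _ (qq_pos t s)]
  rw [e1, e2] at h2
  subst h2
  have hcpos : 0 < c := by
    rcases Nat.eq_zero_or_pos c with h | h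
    · subst h; omega
    · exact h
  exact Nat.eq_of_mul_eq_mul_right hcpos (hc.symm.trans hd)

/-- The lower left corners of the switched squares. -/
def DD (s t : Γ) : Set Γ := {x | ∃ i : ℕ, i + 1 < qq s t ∧ x = rp s t x * (s * t) ^ i}

theorem DD_comm [Finite Γ] {s t : Γ} (hst : Commute s t) (ho : orderOf s = orderOf t) :
    DD s t = DD t s := by
  unfold DD
  ext x
  simp only [Set.mem_ofPred_eq]
  rw [qq_comm ho, rp_comm, hst.eq]

/-- An equation between products of powers. -/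
theorem pow_eq {s t : Γ} (hst : Commute s t) {ρ x : Γ} {i : ℕ} {a b : ℤ}
    (h1 : x = ρ * (s * t) ^ i) (h2 : x = ρ * (s ^ a * t ^ b)) :
    s ^ ((i : ℤ) - a) = t ^ (b - i) := by
  have h3 : (s * t) ^ i = s ^ a * t ^ b := mul_left_cancel (h1.symm.trans h2)
  rw [hst.mul_pow, ← zpow_natCast, ← zpow_natCast] at h3
  have h4 : s ^ ((i : ℤ) - a) = s ^ (-a) * (s ^ (i : ℤ) * t ^ (i : ℤ)) * t ^ (-(i : ℤ)) := by
    group
  rw [h4, h3]
  group

/-- Directed version of the graph. -/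
def Ed (s t x y : Γ) : Prop :=
  (y = x * s ∧ x ∉ DD s t ∧ x * t⁻¹ ∉ DD s t) ∨ (y = x * t ∧ (x ∈ DD s t ∨ x * s⁻¹ ∈ DD s t))

/-- The first of the two graphs. The second one is `Rg t s`. -/
def Rg (s t : Γ) : SimpleGraph Γ where
  Adj x y := x ≠ y ∧ (Ed s t x y ∨ Ed s t y x)
  symm.symm _ _ h := ⟨h.1.symm, h.2.symm⟩
  loopless.irrefl _ h := h.1 rfl

theorem reach_of_Ed {s t x y : Γ} (h : Ed s t x y) : (Rg s t).Reachable x y := by
  by_cases hxy : x = y
  · rw [hxy]
  · exact SimpleGraph.Adj.reachable ⟨hxy, Or.inl h⟩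

section reach

variable [Finite Γ] {s t : Γ} (hst : Commute s t)

include hst

theorem rp_base (x0 : Γ) (k : ℕ) (a b : ℤ) :
    rp s t (rp s t x0 * (s * t) ^ k * s ^ a * t ^ b) = rp s t x0 := by
  have h1 : rp s t (rp s t x0) = rp s t x0 := rp_congr (rp_mem s t x0)
  refine (rp_congr ?_).symm.trans h1
  have : (rp s t x0)⁻¹ * (rp s t x0 * (s * t) ^ k * s ^ a * t ^ b) = (s * t) ^ k * s ^ a * t ^ b := by
    group
  rw [this]
  exact mul_mem (mul_mem (pow_mem (mul_mem (s_mem s t) (t_mem s t)) _)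
    (zpow_mem (s_mem s t) _)) (zpow_mem (t_mem s t) _)

theorem base_eq (ρ : Γ) (k : ℕ) (a b : ℤ) :
    ρ * (s * t) ^ k * s ^ a * t ^ b = ρ * (s ^ (k + a) * t ^ (k + b)) := by
  have h1 : (s * t) ^ k = s ^ (k : ℤ) * t ^ (k : ℤ) := by
    rw [hst.mul_pow, zpow_natCast, zpow_natCast]
  have h2 : t ^ (k : ℤ) * s ^ a = s ^ a * t ^ (k : ℤ) := ((hst.zpow_zpow a k).eq).symm
  rw [h1, zpow_add, zpow_add, mul_assoc, mul_assoc, mul_assoc, ← mul_assoc (t ^ (k : ℤ)), h2]
  group

theorem notD (x0 : Γ) (k : ℕ) (hk : k < qq s t) (j : ℕ)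
    (h : rp s t x0 * (s * t) ^ k * s ^ (j : ℤ) * t ^ (0 : ℤ) ∈ DD s t) : orderOf s ∣ j := by
  obtain ⟨i, hi, hx⟩ := h
  rw [rp_base hst] at hx
  have h1 := pow_eq hst hx (base_eq hst _ k _ _)
  have h2 : t ^ ((k + 0 : ℤ) - i) ∈ Subgroup.zpowers s := by
    rw [← h1]; exact zpow_mem (Subgroup.mem_zpowers s) _
  have hc : (k + 0 : ℤ) - i = 0 := Int.eq_zero_of_abs_lt_dvd ((zmem_iff s t _).1 h2)
    (abs_lt.2 ⟨by omega, by omega⟩)
  have h5 : (k : ℤ) = i := by omega
  have h6 : s ^ (j : ℤ) = 1 := by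
    have h7 : (i : ℤ) - (k + j) = -(j : ℤ) := by omega
    have h8 : (k + 0 : ℤ) - i = 0 := by omega
    rw [h7, h8, zpow_zero, zpow_neg, inv_eq_one] at h1
    exact h1
  rw [zpow_natCast] at h6
  exact orderOf_dvd_of_pow_eq_one h6

theorem notD' (x0 : Γ) (k : ℕ) (hk : k < qq s t) (j : ℕ)
    (h : rp s t x0 * (s * t) ^ k * s ^ (j : ℤ) * t ^ (-1 : ℤ) ∈ DD s t) :
    0 < k ∧ orderOf s ∣ j + 1 := by
  obtain ⟨i, hi, hx⟩ := h
  rw [rp_base hst] at hx
  have h1 := pow_eq hst hx (base_eq hst _ k _ _)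
  have h2 : t ^ ((k + -1 : ℤ) - i) ∈ Subgroup.zpowers s := by
    rw [← h1]; exact zpow_mem (Subgroup.mem_zpowers s) _
  have hc : (k + -1 : ℤ) - i = 0 := Int.eq_zero_of_abs_lt_dvd ((zmem_iff s t _).1 h2)
    (abs_lt.2 ⟨by omega, by omega⟩)
  refine ⟨by omega, ?_⟩
  have h6 : s ^ ((j + 1 : ℕ) : ℤ) = 1 := by
    have h7 : (i : ℤ) - (k + j) = -((j + 1 : ℕ) : ℤ) := by push_cast; omega
    have h8 : (k + -1 : ℤ) - i = 0 := by omega
    rw [h7, h8, zpow_zero, zpow_neg, inv_eq_one] at h1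
    exact h1
  rw [zpow_natCast] at h6
  exact orderOf_dvd_of_pow_eq_one h6

/-- Step along a row. -/
theorem row_step (x0 : Γ) (k : ℕ) (hk : k < qq s t) (j : ℕ) (hj : ¬ orderOf s ∣ j)
    (hj' : k = 0 ∨ ¬ orderOf s ∣ j + 1) :
    (Rg s t).Reachable (rp s t x0 * (s * t) ^ k * s ^ j) (rp s t x0 * (s * t) ^ k * s ^ (j + 1)) := by
  apply reach_of_Ed
  left
  refine ⟨by rw [pow_succ s j, ← mul_assoc], ?_, ?_⟩
  · intro h
    apply hj
    apply notD hst x0 k hk j
    simpa using h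
  · intro h
    have h1 := notD' hst x0 k hk j (by
      rw [zpow_neg_one, zpow_natCast]; exact h)
    rcases hj' with h2 | h2
    · omega
    · exact h2 h1.2

theorem row (x0 : Γ) (k : ℕ) (hk : k < qq s t) (j : ℕ) (hj : j + 1 < orderOf s) :
    (Rg s t).Reachable (rp s t x0 * (s * t) ^ k * s) (rp s t x0 * (s * t) ^ k * s ^ (j + 1)) := by
  induction j with
  | zero => simp
  | succ j ih =>
    refine (ih (by omega)).trans (row_step hst x0 k hk (j + 1) ?_ (Or.inr ?_))
    · exact Nat.not_dvd_of_pos_of_lt (by omega) (by omega)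
    · exact Nat.not_dvd_of_pos_of_lt (by omega) (by omega)

theorem cross (x0 : Γ) (k : ℕ) (hk : k + 1 < qq s t) :
    (Rg s t).Reachable (rp s t x0 * (s * t) ^ k) (rp s t x0 * (s * t) ^ k * t) ∧
    (Rg s t).Reachable (rp s t x0 * (s * t) ^ k * s) (rp s t x0 * (s * t) ^ (k + 1)) := by
  have hD : rp s t x0 * (s * t) ^ k ∈ DD s t := by
    refine ⟨k, hk, ?_⟩
    have := rp_base hst x0 k 0 0
    rw [zpow_zero, zpow_zero, mul_one, mul_one] at this
    rw [this]
  constructor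
  · apply reach_of_Ed
    exact Or.inr ⟨rfl, Or.inl hD⟩
  · apply reach_of_Ed
    right
    refine ⟨by rw [pow_succ (s * t) k]; simp only [mul_assoc], Or.inr ?_⟩
    rw [mul_inv_cancel_right]
    exact hD

theorem diag (hs : s ≠ 1) (x0 : Γ) (k : ℕ) (hk : k < qq s t) :
    (Rg s t).Reachable (rp s t x0 * (s * t) ^ k) (rp s t x0 * (s * t) ^ k * s) := by
  have hm : 2 ≤ orderOf s := by
    have h1 := orderOf_pos s
    have h2 : orderOf s ≠ 1 := fun h => hs (orderOf_eq_one_iff.1 h)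
    omega
  obtain ⟨m, hm'⟩ : ∃ m, orderOf s = m + 2 := ⟨orderOf s - 2, by omega⟩
  induction k with
  | zero =>
    have h1 := row hst x0 0 hk m (by omega)
    have h2 := row_step hst x0 0 hk (m + 1)
      (Nat.not_dvd_of_pos_of_lt (by omega) (by omega)) (Or.inl rfl)
    have h3 : s ^ (m + 1 + 1) = 1 := by
      have := pow_orderOf_eq_one s
      rwa [hm'] at this
    rw [h3, mul_one] at h2
    exact (h1.trans h2).symm
  | succ k ih =>
    have h1 := (cross hst x0 k hk).2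
    have h2 := ih (by omega)
    have h3 := (cross hst x0 k hk).1
    have h4 := row hst x0 (k + 1) hk m (by omega)
    have h5 : rp s t x0 * (s * t) ^ (k + 1) * s ^ (m + 1) = rp s t x0 * (s * t) ^ k * t := by
      have h6 : s * s ^ (m + 1) = 1 := by
        have := pow_orderOf_eq_one s
        rw [hm'] at this
        rw [← pow_succ']
        exact this
      have h7 : t * s ^ (m + 1) = s ^ (m + 1) * t := ((hst.pow_left (m + 1)).eq).symm
      calc rp s t x0 * (s * t) ^ (k + 1) * s ^ (m + 1)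
          = rp s t x0 * (s * t) ^ k * (s * (t * s ^ (m + 1))) := by rw [pow_succ]; group
        _ = rp s t x0 * (s * t) ^ k * (s * s ^ (m + 1) * t) := by rw [h7]; group
        _ = _ := by rw [h6, one_mul]
    rw [h5] at h4
    exact h1.symm.trans (h2.symm.trans (h3.trans h4.symm))

theorem toBase (hs : s ≠ 1) (x0 : Γ) (k : ℕ) (hk : k < qq s t) :
    (Rg s t).Reachable (rp s t x0) (rp s t x0 * (s * t) ^ k) := by
  induction k with
  | zero => simp
  | succ k ih =>
    exact (ih (by omega)).trans ((diag hst hs x0 k (by omega)).trans (cross hst x0 k hk).2)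

theorem all_row (hs : s ≠ 1) (x0 : Γ) (k : ℕ) (hk : k < qq s t) (j : ℕ) (hj : j < orderOf s) :
    (Rg s t).Reachable (rp s t x0) (rp s t x0 * (s * t) ^ k * s ^ j) := by
  refine (toBase hst hs x0 k hk).trans ?_
  cases j with
  | zero => simp
  | succ j => exact (diag hst hs x0 k hk).trans (row hst x0 k hk j hj)

theorem all_reach (hs : s ≠ 1) (x0 : Γ) (a : Γ) (ha : a ∈ AA s t) :
    (Rg s t).Reachable (rp s t x0) (rp s t x0 * a) := by
  obtain ⟨m, n, rfl⟩ := mem_AA hst ha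
  have hq := qq_pos s t
  -- write `n = q e + k`
  set k := (n % (qq s t : ℤ)).toNat with hk
  have hk0 : 0 ≤ n % (qq s t : ℤ) := Int.emod_nonneg _ (by omega)
  have hk1 : (k : ℤ) = n % (qq s t : ℤ) := by rw [hk]; exact Int.toNat_of_nonneg hk0
  have hk2 : k < qq s t := by
    have := Int.emod_lt_of_pos n (b := (qq s t : ℤ)) (by omega)
    omega
  have h1 : t ^ (n - k) ∈ Subgroup.zpowers s := by
    rw [zmem_iff, hk1]
    exact Int.dvd_self_sub_emod
  obtain ⟨f, hf⟩ := h1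
  have hf' : s ^ f = t ^ (n - k) := hf
  have ho := orderOf_pos s
  set j := ((m + f - k) % (orderOf s : ℤ)).toNat with hj
  have hj0 : 0 ≤ (m + f - k) % (orderOf s : ℤ) := Int.emod_nonneg _ (by omega)
  have hj1 : (j : ℤ) = (m + f - k) % (orderOf s : ℤ) := by rw [hj]; exact Int.toNat_of_nonneg hj0
  have hj2 : j < orderOf s := by
    have := Int.emod_lt_of_pos (m + f - k) (b := (orderOf s : ℤ)) (by omega)
    omega
  have h3 : s ^ j = s ^ (m + f - k) := by
    rw [← zpow_natCast, hj1, zpow_mod_orderOf]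
  have h4 : s ^ m * t ^ n = (s * t) ^ k * s ^ j := by
    have e1 : (s * t) ^ k = s ^ (k : ℤ) * t ^ (k : ℤ) := by
      rw [hst.mul_pow, zpow_natCast, zpow_natCast]
    have e2 : t ^ (k : ℤ) * s ^ (m + f - k) = s ^ (m + f - k) * t ^ (k : ℤ) :=
      ((hst.zpow_zpow (m + f - k) k).eq).symm
    rw [e1, h3, mul_assoc, e2, ← mul_assoc, ← zpow_add]
    have e3 : (k : ℤ) + (m + f - k) = m + f := by ring
    rw [e3, zpow_add, hf', mul_assoc, ← zpow_add]
    congr 2
    ring
  rw [h4, ← mul_assoc]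
  exact all_row hst hs x0 k hk2 j hj2

theorem size_le (hs : s ≠ 1) (x : Γ) : Nat.card (AA s t) ≤ csize (Rg s t) x := by
  have h1 : ∀ a ∈ AA s t, (Rg s t).Reachable x (x * a) := by
    intro a ha
    have h2 := all_reach hst hs x _ (rp_mem s t x)
    have h3 := all_reach hst hs x _ (mul_mem (rp_mem s t x) ha)
    rw [mul_inv_cancel_left] at h2
    rw [← mul_assoc, mul_inv_cancel_left] at h3
    exact h2.symm.trans h3
  have h2 : (fun a => x * a) '' ((AA s t : Subgroup Γ) : Set Γ) ⊆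
      {h | (Rg s t).Reachable x h} := by
    rintro _ ⟨a, ha, rfl⟩
    exact h1 a ha
  have h3 := Set.ncard_le_ncard h2 (Set.toFinite _)
  rw [Set.ncard_image_of_injective _ (mul_right_injective x)] at h3
  exact h3

end reach

end Pool.Agent.TH486.LAC
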